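import Pool.Agent.Helper77.SUBK.SheetP

/-!
Project SUBK, second sheet: the Galois rows. `M` is a Galois extension of `ℚ`; the places of `M`
above `v ∈ plc S` are the absolute values `x ↦ P.nv v (σ x)`, `σ` in the Galois group (every
place occurs several times).
-/

set_option autoImplicit false

namespace Pool.Agent.Helper77.SUBK

open Finset Matrix Pool.Agent.Helper70.SUB

/-! ## E. Definitions -/

/-- positive integers all of whose prime factors lie in `S` -/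
def Sm (S : Finset ℕ) (n : ℕ) : Prop := n ≠ 0 ∧ ∀ q : ℕ, q.Prime → q ∣ n → q ∈ S

/-- `S`-integers of `M` -/
def SI {M : Type} [Field M] (S : Finset ℕ) (z : M) : Prop :=
  ∃ n : ℕ, Sm S n ∧ IsIntegral ℤ ((n : M) * z)

/-- `S`-units of `M` -/
def SV {M : Type} [Field M] (S : Finset ℕ) (u : M) : Prop := u ≠ 0 ∧ SI S u ∧ SI S u⁻¹

/-- all the absolute values of `z` at the places above `plc S` are at most `H` -/
def HB {M : Type} [Field M] [NumberField M] {S : Finset ℕ} (P : PF S M) (H : ℝ) (z : M) : Prop :=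
  ∀ v ∈ plc S, ∀ σ : M ≃ₐ[ℚ] M, P.nv v (σ z) ≤ H

/-- the family of matrices `L v σ` depends only on the place `x ↦ P.nv v (σ x)` -/
def Con {M : Type} [Field M] [NumberField M] {S : Finset ℕ} (P : PF S M) {n : ℕ}
    (L : Option ℕ → (M ≃ₐ[ℚ] M) → Matrix (Fin n) (Fin n) M) : Prop :=
  ∀ v ∈ plc S, ∀ σ σ' : M ≃ₐ[ℚ] M, (∀ x, P.nv v (σ x) = P.nv v (σ' x)) → L v σ = L v σ'

/-! ## F. Number fields, places, S-units -/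

/-- (PFX) existence: an embedding into `ℂ` and embeddings into `PadicAlgCl p` -/
def ST_PFX : Prop := ∀ (M : Type) [Field M] [NumberField M] (S : Finset ℕ),
  (∀ p ∈ S, p.Prime) → Nonempty (PF S M)

/-- (RAT) elements fixed by the decomposition group are in the closure of `ℚ` -/
def ST_RAT : Prop := ∀ (M : Type) [Field M] [NumberField M] [IsGalois ℚ M] (S : Finset ℕ)
  (P : PF S M), (∀ p ∈ S, p.Prime) → ∀ v ∈ plc S, ∀ a : M,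
  (∀ τ : M ≃ₐ[ℚ] M, (∀ x, P.nv v (τ x) = P.nv v x) → τ a = a) → Rt P v a

/-- (GALA) complex embeddings, norms, Northcott -/
def ST_GALA : Prop := ∀ (M : Type) [Field M] [NumberField M] [IsGalois ℚ M] (S : Finset ℕ)
  (P : PF S M), (∀ p ∈ S, p.Prime) →
  (∀ φ : M →+* ℂ, ∃ σ : M ≃ₐ[ℚ] M, ∀ x, ‖φ x‖ = P.nv none (σ x)) ∧
  (∀ v ∈ plc S, ∀ z : M, ∏ σ : M ≃ₐ[ℚ] M, P.nv v (σ z) = av v (Algebra.norm ℚ z)) ∧
  (∀ B : ℝ, {z : M | IsIntegral ℤ z ∧ ∀ σ : M ≃ₐ[ℚ] M, P.nv none (σ z) ≤ B}.Finite)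

/-- (SVB) closure properties of `S`-integers and `S`-units -/
def ST_SVB : Prop := ∀ (M : Type) [Field M] [NumberField M],
  (∀ (S : Finset ℕ) (z : M), IsIntegral ℤ z → SI S z) ∧
  (∀ (S : Finset ℕ) (z z' : M), SI S z → SI S z' → SI S (z + z') ∧ SI S (z * z')) ∧
  (∀ (S S' : Finset ℕ) (z : M), S ⊆ S' → (SI S z → SI S' z) ∧ (SV S z → SV S' z)) ∧
  (∀ z : M, z ≠ 0 → ∃ S : Finset ℕ, (∀ p ∈ S, p.Prime) ∧ SV S z) ∧
  (∀ (S : Finset ℕ), SV S (1 : M)) ∧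
  (∀ (S : Finset ℕ) (z z' : M), SV S z → SV S z' → SV S (z * z')) ∧
  (∀ (S : Finset ℕ) (z : M), SV S z → SV S z⁻¹) ∧
  (∀ (S : Finset ℕ) (z : M) (k : ℤ), SV S z → SV S (z ^ k)) ∧
  (∀ (S : Finset ℕ) (ι : Type) (s : Finset ι) (f : ι → M), (∀ i ∈ s, SV S (f i)) →
    SV S (∏ i ∈ s, f i)) ∧
  (∀ (S : Finset ℕ) (z : M) (σ : M ≃ₐ[ℚ] M), (SI S z → SI S (σ z)) ∧ (SV S z → SV S (σ z))) ∧
  (∀ (M' : Type) [Field M'] [NumberField M'] (f : M →+* M') (S : Finset ℕ) (z : M),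
    (SI S z → SI S (f z)) ∧ (SV S z → SV S (f z))) ∧
  (∀ Γ : Subgroup Mˣ, Γ.FG → ∃ S : Finset ℕ, (∀ p ∈ S, p.Prime) ∧ ∀ γ ∈ Γ, SV S (γ : M))

/-- (INTG) `S`-integers which are small at all the places above `S` are integral -/
def ST_INTG : Prop := ∀ (M : Type) [Field M] [NumberField M] [IsGalois ℚ M] (S : Finset ℕ)
  (P : PF S M), (∀ p ∈ S, p.Prime) → ∀ z : M, SI S z →
  (∀ p ∈ S, ∀ σ : M ≃ₐ[ℚ] M, P.nv (some p) (σ z) ≤ 1) → IsIntegral ℤ z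

/-- (PRK) product formula -/
def ST_PRK : Prop := ∀ (M : Type) [Field M] [NumberField M] [IsGalois ℚ M] (S : Finset ℕ)
  (P : PF S M), (∀ p ∈ S, p.Prime) →
  (∀ z : M, z ≠ 0 → SI S z → 1 ≤ ∏ v ∈ plc S, ∏ σ : M ≃ₐ[ℚ] M, P.nv v (σ z)) ∧
  (∀ z : M, SV S z → ∏ v ∈ plc S, ∏ σ : M ≃ₐ[ℚ] M, P.nv v (σ z) = 1) ∧
  (∀ (z : M) (H : ℝ), SV S z → HB P H z →
    1 ≤ H ∧ HB P (H ^ ((plc S).card * Fintype.card (M ≃ₐ[ℚ] M))) z⁻¹)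

/-- (DEN) denominators and finiteness -/
def ST_DEN : Prop := ∀ (M : Type) [Field M] [NumberField M] [IsGalois ℚ M] (S : Finset ℕ)
  (P : PF S M), (∀ p ∈ S, p.Prime) →
  (∀ R : ℝ, 1 ≤ R → ∃ n : ℕ, Sm S n ∧ (n : ℝ) ≤ (∏ p ∈ S, (p : ℝ)) * R ^ S.card ∧
    ∀ z : M, SI S z → (∀ p ∈ S, ∀ σ : M ≃ₐ[ℚ] M, P.nv (some p) (σ z) ≤ R) →
      IsIntegral ℤ ((n : M) * z)) ∧
  (∀ H : ℝ, {z : M | SI S z ∧ HB P H z}.Finite)

/-! ## G. The Subspace theorem over `M` -/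

/-- (CHR) independence of the automorphisms -/
def ST_CHR : Prop := ∀ (M : Type) [Field M] [NumberField M] [IsGalois ℚ M],
  (∀ (d : ℕ) (ω : Module.Basis (Fin d) ℚ M), Fintype.card (M ≃ₐ[ℚ] M) = d ∧
    ∀ X : Fin d → M, (∀ σ : M ≃ₐ[ℚ] M, ∑ l, σ (ω l) * X l = 0) → X = 0) ∧
  (∀ (r : (M ≃ₐ[ℚ] M) → (M ≃ₐ[ℚ] M) → Prop), (∀ σ, r σ σ) →
    ∃ g : (M ≃ₐ[ℚ] M) → M, ∀ X : (M ≃ₐ[ℚ] M) → M,
      (∀ σ, ∑ σ' : M ≃ₐ[ℚ] M, (open Classical in if r σ σ' then σ' (g σ) else 0) * X σ' = 0) →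
        X = 0)

/-- (KMAT) the matrices of the restriction of scalars -/
def ST_KMAT : Prop := ∀ (M : Type) [Field M] [NumberField M] [IsGalois ℚ M] (S : Finset ℕ)
  (P : PF S M) (n d : ℕ) (ω : Module.Basis (Fin d) ℚ M)
  (L : Option ℕ → (M ≃ₐ[ℚ] M) → Matrix (Fin n) (Fin n) M), (∀ p ∈ S, p.Prime) →
  (∀ v ∈ plc S, ∀ σ, (L v σ).det ≠ 0) → Con P L →
  ∃ (N : ℕ) (e : Fin N ≃ (M ≃ₐ[ℚ] M) × Fin n) (f : Fin N ≃ Fin n × Fin d)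
    (A : Option ℕ → Matrix (Fin N) (Fin N) M) (K0 : ℝ), 1 ≤ K0 ∧ (∀ v ∈ plc S, (A v).det ≠ 0) ∧
    RtM P A ∧ ∀ v ∈ plc S, ∀ (X : Fin N → ℤ) (I : Fin N) (b : ℝ),
      P.nv v ((e I).1 ((L v (e I).1).mulVec
        (fun k => ∑ l, (X (f.symm (k, l)) : M) * ω l) (e I).2)) ≤ b →
      P.nv v ((A v).mulVec (cM X) I) ≤ K0 * b

/-- (KTR) from a relation over `ℚ` for all multiples to a relation over `M` (trace form) -/
def ST_KTR : Prop := ∀ (M : Type) [Field M] [NumberField M] (n d : ℕ)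
  (ω : Module.Basis (Fin d) ℚ M) (u : Fin n → Fin d → ℚ), u ≠ 0 →
  ∃ a : Fin n → M, a ≠ 0 ∧ ∀ x : Fin n → M,
    (∀ m : Fin d, ∑ k, ∑ l, u k l * ω.repr (ω m * x k) l = 0) → ∑ k, a k * x k = 0

/-- (KPAR) the parametric Subspace theorem over `M` -/
def ST_KPAR : Prop := ∀ (M : Type) [Field M] [NumberField M] [IsGalois ℚ M] (S : Finset ℕ)
  (P : PF S M) (n : ℕ) (L : Option ℕ → (M ≃ₐ[ℚ] M) → Matrix (Fin n) (Fin n) M)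
  (c : Option ℕ → (M ≃ₐ[ℚ] M) → Fin n → ℝ) (M1 : Set ℕ) (Q : ℕ → ℝ) (K : ℝ), 1 ≤ n →
  (∀ p ∈ S, p.Prime) → (∀ v ∈ plc S, ∀ σ, (L v σ).det ≠ 0) → Con P L →
  (∀ p ∈ S, ∀ σ i, c (some p) σ i ≤ 0) →
  ∑ v ∈ plc S, ∑ σ : M ≃ₐ[ℚ] M, ∑ i, c v σ i < 0 → M1.Infinite →
  (∀ B : ℝ, {j | j ∈ M1 ∧ Q j ≤ B}.Finite) → 1 ≤ K →
  ∃ a : Fin n → M, a ≠ 0 ∧ {j | j ∈ M1 ∧ ∀ x : Fin n → M, (∀ k, IsIntegral ℤ (x k)) →
    (∀ v ∈ plc S, ∀ (σ : M ≃ₐ[ℚ] M) (i : Fin n),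
      P.nv v (σ ((L v σ).mulVec x i)) ≤ K * Q j ^ (c v σ i)) → ∑ k, a k * x k = 0}.Infinite

/-- (SUBTK) the Subspace theorem over `M` -/
def ST_SUBTK : Prop := ∀ (M : Type) [Field M] [NumberField M] [IsGalois ℚ M] (S : Finset ℕ)
  (P : PF S M) (n : ℕ) (L : Option ℕ → (M ≃ₐ[ℚ] M) → Matrix (Fin n) (Fin n) M)
  (ε A : ℝ) (M1 : Set ℕ) (Q : ℕ → ℝ) (y : ℕ → Fin n → M), 1 ≤ n →
  (∀ p ∈ S, p.Prime) → (∀ v ∈ plc S, ∀ σ, (L v σ).det ≠ 0) → Con P L → 0 < ε → 0 < A →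
  M1.Infinite → (∀ B : ℝ, {j | j ∈ M1 ∧ Q j ≤ B}.Finite) →
  (∀ j ∈ M1, 1 ≤ Q j ∧
    (∃ m : ℕ, Sm S m ∧ (m : ℝ) ≤ Q j ^ A ∧ ∀ i, IsIntegral ℤ ((m : M) * y j i)) ∧
    (∀ (σ : M ≃ₐ[ℚ] M) (i : Fin n), P.nv none (σ (y j i)) ≤ Q j ^ A) ∧
    ∏ v ∈ plc S, ∏ σ : M ≃ₐ[ℚ] M, ∏ i, P.nv v (σ ((L v σ).mulVec (y j) i)) ≤ Q j ^ (-ε)) →
  ∃ a : Fin n → M, a ≠ 0 ∧ {j | j ∈ M1 ∧ ∑ k, a k * y j k = 0}.Infinite

/-! ## H. S-units -/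

/-- (RELK) a linear relation with nonzero coefficients between S-units makes two of them
proportional on an infinite set -/
def ST_RELK : Prop := ∀ (M : Type) [Field M] [NumberField M] [IsGalois ℚ M] (S : Finset ℕ)
  (ι : Type) [Fintype ι] [DecidableEq ι] (a : ι → M) (M1 : Set ℕ) (u : ℕ → ι → M),
  (∀ p ∈ S, p.Prime) → Nonempty ι → (∀ i, a i ≠ 0) → M1.Infinite →
  (∀ j ∈ M1, ∀ i, SV S (u j i)) → (∀ j ∈ M1, ∑ i, a i * u j i = 0) →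
  ∃ (i i' : ι) (M' : Set ℕ) (ρ : M), i ≠ i' ∧ M' ⊆ M1 ∧ M'.Infinite ∧
    ∀ j ∈ M', u j i = ρ * u j i'

/-- (U2K) lower bound at the place `(v, σ)` for sums of S-units -/
def ST_U2K : Prop := ∀ (M : Type) [Field M] [NumberField M] [IsGalois ℚ M] (S : Finset ℕ)
  (P : PF S M) (ι : Type) [Fintype ι] [DecidableEq ι] (a : ι → M) (ε : ℝ) (M1 : Set ℕ)
  (u : ℕ → ι → M) (v : Option ℕ) (σ : M ≃ₐ[ℚ] M), (∀ p ∈ S, p.Prime) → Nonempty ι →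
  (∀ i, a i ≠ 0) → 0 < ε → M1.Infinite → (∀ j ∈ M1, ∀ i, SV S (u j i)) →
  (∀ (i i' : ι) (ρ : M), i ≠ i' → {j | j ∈ M1 ∧ u j i = ρ * u j i'}.Finite) → v ∈ plc S →
  ∃ C : ℝ, 0 < C ∧ {j | j ∈ M1 ∧ ¬ ∀ (i : ι) (H : ℝ), (∀ i', HB P H (u j i')) →
    C * P.nv v (σ (u j i)) * H ^ (-ε) ≤ P.nv v (σ (∑ i, a i * u j i))}.Finite

/-- (CLNK) removal of proportional terms: a representation with the minimal number of terms -/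
def ST_CLNK : Prop := ∀ (M : Type) [Field M] [NumberField M] (S : Finset ℕ) (t : ℕ)
  (M1 : Set ℕ) (a : ℕ → Fin t → M) (x : ℕ → M), M1.Infinite →
  (∀ j ∈ M1, ∀ i, a j i = 0 ∨ SV S (a j i)) → (∀ j ∈ M1, ∑ i, a j i = x j) →
  ∃ (M' : Set ℕ) (t' : ℕ) (c : Fin t' → M) (b : ℕ → Fin t' → M), M' ⊆ M1 ∧ M'.Infinite ∧
    (∀ i, c i ≠ 0) ∧ (∀ j ∈ M', ∀ i, SV S (b j i)) ∧ (∀ j ∈ M', ∑ i, c i * b j i = x j) ∧
    (∀ (i i' : Fin t') (ρ : M), i ≠ i' → {j | j ∈ M' ∧ b j i = ρ * b j i'}.Finite)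

/-- (HBK) the heights of the terms are bounded by the sum if the sum is an integer -/
def ST_HBK : Prop := ∀ (M : Type) [Field M] [NumberField M] [IsGalois ℚ M] (S : Finset ℕ)
  (P : PF S M) (t : ℕ) (M1 : Set ℕ) (c : Fin t → M) (b : ℕ → Fin t → M) (x : ℕ → ℤ),
  (∀ p ∈ S, p.Prime) → M1.Infinite → (∀ i, c i ≠ 0) → (∀ j ∈ M1, ∀ i, SV S (b j i)) →
  (∀ j ∈ M1, ∑ i, c i * b j i = (x j : M)) → (∀ j ∈ M1, x j ≠ 0) →
  (∀ (i i' : Fin t) (ρ : M), i ≠ i' → {j | j ∈ M1 ∧ b j i = ρ * b j i'}.Finite) →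
  ∃ K : ℝ, 1 ≤ K ∧ {j | j ∈ M1 ∧ ¬ ∀ i, HB P (K * |(x j : ℝ)| ^ (2 : ℕ)) (b j i)}.Finite

/-! ## I. Laurent polynomials over `M` -/

/-- monomials -/
noncomputable def monM {M : Type} [Field M] {r : ℕ} (w : Fin r → M) (m : Fin r → ℤ) : M :=
  ∏ k, w k ^ (m k)

/-- independent quantities: no nontrivial monomial is constant on an infinite subset of `M1` -/
def IndepM {M : Type} [Field M] {r : ℕ} (M1 : Set ℕ) (w : ℕ → Fin r → M) : Prop :=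
  (∀ j ∈ M1, ∀ k, w j k ≠ 0) ∧
  (∀ (l : Fin r → ℤ) (ρ : M), l ≠ 0 → {j | j ∈ M1 ∧ monM (w j) l = ρ}.Finite)

/-- (MONOK) along an infinite set the terms are monomials in independent quantities -/
def ST_MONOK : Prop := ∀ (M : Type) [Field M] [NumberField M] (ι : Type) [Fintype ι]
  (M1 : Set ℕ) (u : ℕ → ι → M), M1.Infinite → (∀ j ∈ M1, ∀ i, u j i ≠ 0) →
  ∃ (M' : Set ℕ) (r : ℕ) (w : ℕ → Fin r → M) (m : ι → Fin r → ℤ) (c : ι → M), M' ⊆ M1 ∧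
    M'.Infinite ∧ (∀ i, c i ≠ 0) ∧ IndepM M' w ∧
    (∀ j ∈ M', ∀ i, u j i = c i * monM (w j) (m i)) ∧
    (∀ k, ∃ (κ : M) (e : ι → ℤ), κ ≠ 0 ∧ ∀ j ∈ M', w j k = κ * ∏ i, u j i ^ (e i))

/-- Laurent polynomials -/
abbrev LauM (M : Type) [Field M] (r : ℕ) := AddMonoidAlgebra M (Fin r → ℤ)

/-- evaluation -/
noncomputable def evM {M : Type} [Field M] {r : ℕ} (w : Fin r → M) (F : LauM M r) : M :=
  ∑ m ∈ Finsupp.support F.coeff, F.coeff m * monM w m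

/-- the derivation attached to `δ` -/
noncomputable def drM {M : Type} [Field M] {r : ℕ} (δ : Fin r → ℤ) (F : LauM M r) : LauM M r :=
  ∑ m ∈ Finsupp.support F.coeff, AddMonoidAlgebra.single m (((∑ k, δ k * m k : ℤ) : M) * F.coeff m)

/-- (LAUBM) evaluation is a ring homomorphism, `drM` is a derivation -/
def ST_LAUBM : Prop := ∀ (M : Type) [Field M] (r : ℕ),
  (∀ (w : Fin r → M), (∀ k, w k ≠ 0) →
    (∀ m m' : Fin r → ℤ, monM w (m + m') = monM w m * monM w m') ∧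
    (∀ (m : Fin r → ℤ) (c : M), evM w (AddMonoidAlgebra.single m c) = c * monM w m) ∧
    (∀ F G : LauM M r, evM w (F + G) = evM w F + evM w G) ∧
    (∀ (c : M) (F : LauM M r), evM w (c • F) = c * evM w F) ∧
    (∀ F G : LauM M r, evM w (F * G) = evM w F * evM w G)) ∧
  (∀ (δ : Fin r → ℤ),
    (∀ (m : Fin r → ℤ) (c : M), drM δ (AddMonoidAlgebra.single m c)
      = AddMonoidAlgebra.single m (((∑ k, δ k * m k : ℤ) : M) * c)) ∧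
    (∀ F G : LauM M r, drM δ (F + G) = drM δ F + drM δ G) ∧
    (∀ F G : LauM M r, drM δ (F * G) = F * drM δ G + drM δ F * G) ∧
    (∀ (F : LauM M r) (m : Fin r → ℤ),
      (drM δ F).coeff m = ((∑ k, δ k * m k : ℤ) : M) * F.coeff m))

/-- (LAU1M) proportional logarithmic derivatives -/
def ST_LAU1M : Prop := ∀ (M : Type) [Field M] [CharZero M] (r : ℕ) (F G : LauM M r), G ≠ 0 →
  (∀ δ : Fin r → ℤ, F * drM δ G = G * drM δ F) → ∃ c : M, F = c • G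

/-- (LAU2K) size of the terms of a Laurent polynomial in independent S-units, at `(v, σ)` -/
def ST_LAU2K : Prop := ∀ (M : Type) [Field M] [NumberField M] [IsGalois ℚ M] (S : Finset ℕ)
  (P : PF S M) (r : ℕ) (M1 : Set ℕ) (w : ℕ → Fin r → M) (F : LauM M r) (ε : ℝ)
  (H : ℕ → ℝ) (v : Option ℕ) (σ : M ≃ₐ[ℚ] M),
  (∀ p ∈ S, p.Prime) → M1.Infinite → 0 < ε → F ≠ 0 → IndepM M1 w →
  (∀ j ∈ M1, ∀ k, SV S (w j k) ∧ HB P (H j) (w j k)) → (∀ j ∈ M1, 1 ≤ H j) → v ∈ plc S →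
  ∃ C : ℝ, 0 < C ∧ {j | j ∈ M1 ∧ ¬ ∀ m ∈ Finsupp.support F.coeff,
    C * P.nv v (σ (monM (w j) m)) * H j ^ (-ε) ≤ P.nv v (σ (evM (w j) F))}.Finite

/-- (NUMK) values of Laurent polynomials in S-units have bounded denominators outside `S` -/
def ST_NUMK : Prop := ∀ (M : Type) [Field M] [NumberField M] [IsGalois ℚ M] (S : Finset ℕ)
  (P : PF S M) (r : ℕ) (F : LauM M r), (∀ p ∈ S, p.Prime) →
  ∃ c : ℝ, 0 < c ∧ ∀ (w : Fin r → M), (∀ k, SV S (w k)) → evM w F ≠ 0 →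
    c ≤ ∏ v ∈ plc S, ∏ σ : M ≃ₐ[ℚ] M, P.nv v (σ (evM w F))

/-! ## J. The application to `y ^ 2 - x ^ 3` -/

/-- (COREK) the heart of the application -/
def ST_COREK : Prop := ∀ (M : Type) [Field M] [NumberField M] [IsGalois ℚ M] (S : Finset ℕ)
  (P : PF S M) (r : ℕ) (M1 : Set ℕ) (w : ℕ → Fin r → M) (X Y : LauM M r)
  (a ε : ℝ) (x y : ℕ → ℤ), (∀ p ∈ S, p.Prime) → M1.Infinite → 0 < ε → 0 < a → IndepM M1 w →
  (∀ B : ℝ, {j | j ∈ M1 ∧ |(x j : ℝ)| ≤ B}.Finite) →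
  (∀ j ∈ M1, (∀ k, SV S (w j k) ∧ HB P (|(x j : ℝ)| ^ a) (w j k)) ∧
    (x j : M) = evM (w j) X ∧ (y j : M) = evM (w j) Y ∧ y j ^ 2 ≠ x j ^ 3 ∧
    |((y j ^ 2 - x j ^ 3 : ℤ) : ℝ)| ≤ |(x j : ℝ)| ^ (1 / (2 + ε))) → False

/-- (T1KG) integers which are sums of boundedly many S-units of a Galois extension of `ℚ` -/
def ST_T1KG : Prop := ∀ (M : Type) [Field M] [NumberField M] [IsGalois ℚ M] (S : Finset ℕ)
  (t : ℕ) (ε : ℝ), (∀ p ∈ S, p.Prime) → 0 < ε →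
  ∃ C : ℝ, ∀ (a b : Fin t → M) (x y : ℤ), (∀ i, a i = 0 ∨ SV S (a i)) →
    (∀ i, b i = 0 ∨ SV S (b i)) → ∑ i, a i = (x : M) → ∑ i, b i = (y : M) → y ^ 2 ≠ x ^ 3 →
    Real.log |(x : ℝ)| ≤ (2 + ε) * Real.log |((y ^ 2 - x ^ 3 : ℤ) : ℝ)| + C

/-- (T1K) integers which are sums of boundedly many elements of a finitely generated
multiplicative group of algebraic numbers -/
def ST_T1K : Prop := ∀ (M : Type) [Field M] [NumberField M] (Γ : Subgroup Mˣ) (t : ℕ) (ε : ℝ),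
  Γ.FG → 0 < ε →
  ∃ C : ℝ, ∀ (a b : Fin t → M) (x y : ℤ), (∀ i, a i = 0 ∨ ∃ γ ∈ Γ, a i = (γ : M)) →
    (∀ i, b i = 0 ∨ ∃ γ ∈ Γ, b i = (γ : M)) → ∑ i, a i = (x : M) → ∑ i, b i = (y : M) →
    y ^ 2 ≠ x ^ 3 →
    Real.log |(x : ℝ)| ≤ (2 + ε) * Real.log |((y ^ 2 - x ^ 3 : ℤ) : ℝ)| + C

end Pool.Agent.Helper77.SUBK
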