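import Pool.Agent.Helper77.SUBK.SheetP

/-!
Project SUBK, row EVALM: the size of the values of a multihomogeneous polynomial, coefficients of
the linear forms in a number field.
-/

set_option autoImplicit false

namespace Pool.Agent.Helper77.SUBK

open Finset Pool.Agent.Helper70.SUB

section

variable {M : Type} [Field M]

theorem eval_lsubM {m n : ℕ} (N : Matrix (Fin n) (Fin n) M) (G : MvPolynomial (Fin m × Fin n) M)
    (y : Fin m × Fin n → M) :
    MvPolynomial.eval y (lsub N G) =
      MvPolynomial.eval (fun hi : Fin m × Fin n => ∑ k, N hi.2 k * y (hi.1, k)) G := by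
  have h : (MvPolynomial.aeval y : MvPolynomial (Fin m × Fin n) M →ₐ[M] M).comp (lsub N) =
      MvPolynomial.aeval (fun hi : Fin m × Fin n => ∑ k, N hi.2 k * y (hi.1, k)) := by
    apply MvPolynomial.algHom_ext
    intro i
    simp [lsub]
  have h2 := DFunLike.congr_fun h G
  simpa [MvPolynomial.aeval_eq_eval] using h2

theorem toM_coeff {σ : Type} (G : MvPolynomial σ ℤ) (J : σ →₀ ℕ) :
    (toM G : MvPolynomial σ M).coeff J = ((G.coeff J : ℤ) : M) := by
  unfold toM
  rw [MvPolynomial.coeff_map]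
  rfl

theorem eval_castM {σ : Type} (y : σ → ℤ) (F : MvPolynomial σ ℤ) :
    ((MvPolynomial.eval y F : ℤ) : M) = MvPolynomial.eval (fun s => (y s : M)) (toM F) := by
  unfold toM
  rw [MvPolynomial.eval_map]
  exact (MvPolynomial.eval₂_comp_left (Int.castRingHom M) (RingHom.id ℤ) y F).trans (by
    simp [Function.comp_def])

theorem key_identityM {m n : ℕ} (A N : Matrix (Fin n) (Fin n) M) (hNA : N * A = 1)
    (F : MvPolynomial (Fin m × Fin n) ℤ) (x : Fin m → Fin n → ℤ) :
    ((MvPolynomial.eval (bl x) F : ℤ) : M) =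
      ∑ J ∈ (lsub N (toM F)).support, (lsub N (toM F)).coeff J *
        ∏ hi : Fin m × Fin n, (A.mulVec (cM (x hi.1)) hi.2) ^ J hi := by
  rw [← MvPolynomial.eval_eq' (fun hi : Fin m × Fin n => A.mulVec (cM (x hi.1)) hi.2), eval_lsubM,
    eval_castM]
  apply congrArg (fun f => MvPolynomial.eval f (toM F : MvPolynomial (Fin m × Fin n) M))
  funext hi
  have h1 : (N * A).mulVec (cM (x hi.1)) hi.2 =
      ((1 : Matrix (Fin n) (Fin n) M).mulVec (cM (x hi.1))) hi.2 := by rw [hNA]
  rw [← Matrix.mulVec_mulVec, Matrix.one_mulVec] at h1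
  simp only [Matrix.mulVec, dotProduct] at h1
  simp only [Matrix.mulVec, dotProduct]
  rw [h1]
  rfl

end

/-- (EVALM) -/
theorem EVALM (hAV : ST_AV) (hLSBM : ST_LSBM) : ST_EVALM := by
  intro M _ _ S P m n hS v hv A N C hNA hNC hC1 r F x b hF hb hJ
  have hC0 : (0 : ℝ) ≤ C := le_trans zero_le_one hC1
  have key := key_identityM A N hNA F x
  set R := ∑ h, r h with hR
  set G : MvPolynomial (Fin m × Fin n) M := lsub N (toM F) with hG
  have hav : av v ((MvPolynomial.eval (bl x) F : ℤ) : ℚ) =
      P.nv v ((MvPolynomial.eval (bl x) F : ℤ) : M) := (P.intCast hv _).symm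
  rw [hav, key]
  have hterm : ∀ J, P.nv v (G.coeff J *
      ∏ hi : Fin m × Fin n, (A.mulVec (cM (x hi.1)) hi.2) ^ J hi) =
      P.nv v (G.coeff J) *
        ∏ hi : Fin m × Fin n, (P.nv v (A.mulVec (cM (x hi.1)) hi.2)) ^ (J hi) := by
    intro J
    rw [P.mul v hv, P.prod hv]
    congr 1
    exact Finset.prod_congr rfl fun hi _ => P.pow hv _ _
  have hl0 : (0 : ℝ) ≤ (l1 F : ℝ) := by
    have : (0 : ℤ) ≤ l1 F := Finset.sum_nonneg fun J _ => abs_nonneg _
    exact_mod_cast this
  obtain ⟨a, haN, haC, ha0⟩ : ∃ a : ℝ, (∀ i k, P.nv v (N i k) ≤ a) ∧ ((n : ℝ) * a ≤ C) ∧ 0 ≤ a := by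
    rcases Nat.eq_zero_or_pos n with hn | hn
    · subst hn
      refine ⟨0, fun i => i.elim0, ?_, le_rfl⟩
      simpa using hC0
    · have hn0 : (0 : ℝ) < n := by exact_mod_cast hn
      refine ⟨C / n, fun i k => ?_, ?_, by positivity⟩
      · rw [le_div_iff₀ hn0, mul_comm]
        exact hNC i k
      · rw [mul_div_cancel₀ _ hn0.ne']
  rcases v with _ | p
  · -- the real place
    have hl := (hLSBM M (P.nv none) (P.nn none) (P.nz none)
      (fun z => by rw [P.intCast hv]; simp [av]) (fun x y => (P.mul none hv x y).le)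
      (P.add none hv) m n r F N a ha0 haN hF).2.1
    have hl' : ∑ J ∈ G.support, P.nv none (G.coeff J) ≤ C ^ R * (l1 F : ℝ) := by
      refine le_trans hl ?_
      have h3 : (0 : ℝ) ≤ (n : ℝ) * a := by positivity
      exact mul_le_mul_of_nonneg_right (pow_le_pow_left₀ h3 haC R) hl0
    calc P.nv none (∑ J ∈ G.support, G.coeff J *
          ∏ hi : Fin m × Fin n, (A.mulVec (cM (x hi.1)) hi.2) ^ J hi)
        ≤ ∑ J ∈ G.support, P.nv none (G.coeff J *
          ∏ hi : Fin m × Fin n, (A.mulVec (cM (x hi.1)) hi.2) ^ J hi) := P.sum_le hv _ _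
      _ ≤ ∑ J ∈ G.support, P.nv none (G.coeff J) * b := by
          apply Finset.sum_le_sum
          intro J hJs
          rw [hterm J]
          exact mul_le_mul_of_nonneg_left (hJ J (MvPolynomial.mem_support_iff.mp hJs)) (P.nn _ _)
      _ = (∑ J ∈ G.support, P.nv none (G.coeff J)) * b := by rw [Finset.sum_mul]
      _ ≤ C ^ R * (l1 F : ℝ) * b := mul_le_mul_of_nonneg_right hl' hb
  · -- a finite place
    have hp : p ∈ S := of_mem_some hv
    have hl := (hLSBM M (P.nv (some p)) (P.nn _) (P.nz _)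
      (fun z => by
        rcases eq_or_ne z 0 with h | h
        · rw [h, Int.cast_zero, P.nz, Int.cast_zero, abs_zero]
        · refine (P.int_le hAV hS hp z).trans ?_
          have : (1 : ℤ) ≤ |z| := Int.one_le_abs h
          exact_mod_cast this) (fun x y => (P.mul _ hv x y).le)
      (P.add _ hv) m n r F N a ha0 haN hF).2.2 (P.ult p hp) (P.int_le hAV hS hp)
    rcases eq_or_ne F 0 with hF0 | hF0
    · have hG0 : G = 0 := by rw [hG, hF0, map_zero, map_zero]
      rw [hG0]
      simp only [MvPolynomial.support_zero, Finset.sum_empty]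
      rw [P.nz]
      positivity
    have hl1 : (1 : ℝ) ≤ (l1 F : ℝ) := by
      have h1 : (1 : ℤ) ≤ l1 F := by
        obtain ⟨J, hJs⟩ := MvPolynomial.ne_zero_iff.mp hF0
        have h2 : |F.coeff J| ≤ l1 F :=
          Finset.single_le_sum (f := fun J => |F.coeff J|) (fun J _ => abs_nonneg _)
            (MvPolynomial.mem_support_iff.mpr hJs)
        exact le_trans (Int.one_le_abs hJs) h2
      exact_mod_cast h1
    have haC' : a ^ R ≤ C ^ R := by
      rcases Nat.eq_zero_or_pos n with hn | hn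
      · subst hn
        have hR0 : R = 0 := by
          rw [hR]
          apply Finset.sum_eq_zero
          intro h _
          obtain ⟨J, hJs⟩ := MvPolynomial.ne_zero_iff.mp hF0
          have := hF J hJs h
          rw [← this]
          simp
        rw [hR0, pow_zero, pow_zero]
      · apply pow_le_pow_left₀ ha0
        have hn1 : (1 : ℝ) ≤ n := by exact_mod_cast hn
        nlinarith
    have h4 : P.nv (some p) (∑ J ∈ G.support, G.coeff J *
          ∏ hi : Fin m × Fin n, (A.mulVec (cM (x hi.1)) hi.2) ^ J hi) ≤ C ^ R * b := by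
      apply P.sum_ult hp
      · positivity
      · intro J hJs
        rw [hterm J]
        have h6 := hJ J (MvPolynomial.mem_support_iff.mp hJs)
        exact mul_le_mul ((hl J).trans haC') h6
          (Finset.prod_nonneg fun hi _ => pow_nonneg (P.nn _ _) _) (pow_nonneg hC0 R)
    calc P.nv (some p) (∑ J ∈ G.support, G.coeff J *
          ∏ hi : Fin m × Fin n, (A.mulVec (cM (x hi.1)) hi.2) ^ J hi) ≤ C ^ R * b := h4
      _ = C ^ R * 1 * b := by ring
      _ ≤ C ^ R * (l1 F : ℝ) * b := by
          apply mul_le_mul_of_nonneg_right _ hb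
          exact mul_le_mul_of_nonneg_left hl1 (pow_nonneg hC0 R)

end Pool.Agent.Helper77.SUBK
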