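import Pool.Agent.Helper77.SUBK.SheetK

/-!
Project SUBK, row KMAT: the matrices of the restriction of scalars.
-/

set_option autoImplicit false

namespace Pool.Agent.Helper77.SUBK

open Finset Matrix Pool.Agent.Helper70.SUB

theorem KMAT (hRAT : ST_RAT) (hCHR : ST_CHR) : ST_KMAT := by
  intro M _ _ _ S P n d ω L hS hdet hCon
  classical
  obtain ⟨hC1, hC2⟩ := hCHR M
  have hcard := (hC1 d ω).1
  have hinj := (hC1 d ω).2
  set r : Option ℕ → (M ≃ₐ[ℚ] M) → (M ≃ₐ[ℚ] M) → Prop :=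
    fun v σ σ' => ∀ x, P.nv v (σ x) = P.nv v (σ' x) with hr
  have hg0 : ∀ v : Option ℕ, ∃ g : (M ≃ₐ[ℚ] M) → M, ∀ X : (M ≃ₐ[ℚ] M) → M,
      (∀ σ, ∑ σ' : M ≃ₐ[ℚ] M, (if r v σ σ' then σ' (g σ) else 0) * X σ' = 0) → X = 0 := by
    intro v
    obtain ⟨g, hg⟩ := hC2 (r v) (fun σ x => rfl)
    exact ⟨g, fun X hX => hg X fun σ => hX σ⟩
  choose g hg using hg0
  set N : ℕ := Fintype.card ((M ≃ₐ[ℚ] M) × Fin n) with hN
  set e : Fin N ≃ (M ≃ₐ[ℚ] M) × Fin n := (Fintype.equivFin ((M ≃ₐ[ℚ] M) × Fin n)).symm with he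
  have hcard2 : Fintype.card (Fin N) = Fintype.card (Fin n × Fin d) := by
    rw [Fintype.card_fin, hN, Fintype.card_prod, Fintype.card_prod, hcard, Fintype.card_fin,
      Fintype.card_fin, mul_comm]
  set f : Fin N ≃ Fin n × Fin d := Fintype.equivOfCardEq hcard2 with hf
  set A : Option ℕ → Matrix (Fin N) (Fin N) M := fun v I J =>
    ∑ σ' : M ≃ₐ[ℚ] M, if r v (e I).1 σ' then
      σ' (g v (e I).1 * L v (e I).1 (e I).2 (f J).1 * ω (f J).2) else 0 with hA
  set K0 : ℝ := 1 + ∑ v ∈ plc S, ∑ σ : M ≃ₐ[ℚ] M, ∑ σ' : M ≃ₐ[ℚ] M, P.nv v (σ' (g v σ)) with hK0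
  have hK0sum : ∀ v ∈ plc S, ∀ σ : M ≃ₐ[ℚ] M, ∑ σ' : M ≃ₐ[ℚ] M, P.nv v (σ' (g v σ)) ≤ K0 := by
    intro v hv σ
    have h1 : ∑ σ' : M ≃ₐ[ℚ] M, P.nv v (σ' (g v σ)) ≤
        ∑ σ : M ≃ₐ[ℚ] M, ∑ σ' : M ≃ₐ[ℚ] M, P.nv v (σ' (g v σ)) :=
      Finset.single_le_sum (f := fun σ : M ≃ₐ[ℚ] M => ∑ σ' : M ≃ₐ[ℚ] M, P.nv v (σ' (g v σ)))
        (fun σ _ => Finset.sum_nonneg fun σ' _ => P.nn _ _) (Finset.mem_univ σ)
    have h2 : ∑ σ : M ≃ₐ[ℚ] M, ∑ σ' : M ≃ₐ[ℚ] M, P.nv v (σ' (g v σ)) ≤
        ∑ v ∈ plc S, ∑ σ : M ≃ₐ[ℚ] M, ∑ σ' : M ≃ₐ[ℚ] M, P.nv v (σ' (g v σ)) :=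
      Finset.single_le_sum
        (f := fun v => ∑ σ : M ≃ₐ[ℚ] M, ∑ σ' : M ≃ₐ[ℚ] M, P.nv v (σ' (g v σ)))
        (fun v _ => Finset.sum_nonneg fun σ _ => Finset.sum_nonneg fun σ' _ => P.nn _ _) hv
    rw [hK0]
    linarith
  have hK01 : 1 ≤ K0 := by
    have h1 : 0 ≤ ∑ v ∈ plc S, ∑ σ : M ≃ₐ[ℚ] M, ∑ σ' : M ≃ₐ[ℚ] M, P.nv v (σ' (g v σ)) :=
      Finset.sum_nonneg fun v _ => Finset.sum_nonneg fun σ _ => Finset.sum_nonneg fun σ' _ =>
        P.nn _ _
    rw [hK0]
    linarith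
  refine ⟨N, e, f, A, K0, hK01, ?_, ?_, ?_⟩
  · -- the determinant
    intro v hv h0
    obtain ⟨X, hX, hX0⟩ := Matrix.exists_mulVec_eq_zero_iff.mpr h0
    apply hX
    set ρ : Fin n → (M ≃ₐ[ℚ] M) → M := fun i σ' =>
      ∑ J, σ' (L v σ' i (f J).1 * ω (f J).2) * X J with hρ
    have hρ0 : ∀ i, ρ i = 0 := by
      intro i
      apply hg v
      intro σ
      have h1 := congrFun hX0 (e.symm (σ, i))
      simp only [Matrix.mulVec, dotProduct, hA, Equiv.apply_symm_apply, Pi.zero_apply] at h1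
      have h2 : ∑ σ' : M ≃ₐ[ℚ] M, (if r v σ σ' then σ' (g v σ) else 0) * ρ i σ' =
          ∑ J, (∑ σ' : M ≃ₐ[ℚ] M, if r v σ σ' then
            σ' (g v σ * L v σ i (f J).1 * ω (f J).2) else 0) * X J := by
        have h3 : ∀ J, (∑ σ' : M ≃ₐ[ℚ] M, if r v σ σ' then
            σ' (g v σ * L v σ i (f J).1 * ω (f J).2) else 0) * X J =
            ∑ σ' : M ≃ₐ[ℚ] M, (if r v σ σ' then σ' (g v σ) else 0) *
              (σ' (L v σ' i (f J).1 * ω (f J).2) * X J) := by
          intro J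
          rw [Finset.sum_mul]
          apply Finset.sum_congr rfl
          intro σ' _
          by_cases h : r v σ σ'
          · rw [if_pos h, if_pos h, hCon v hv σ σ' h, mul_assoc (g v σ), map_mul σ' (g v σ),
              mul_assoc]
          · rw [if_neg h, if_neg h, zero_mul, zero_mul]
        rw [Finset.sum_congr rfl fun J _ => h3 J, Finset.sum_comm]
        apply Finset.sum_congr rfl
        intro σ' _
        rw [← Finset.mul_sum]
      rw [h2]
      exact h1
    have hY : ∀ (σ' : M ≃ₐ[ℚ] M) (k : Fin n), ∑ l, σ' (ω l) * X (f.symm (k, l)) = 0 := by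
      intro σ'
      have hdet' : ((L v σ').map σ').det ≠ 0 := by
        have h1 : ((L v σ').map σ').det = σ' ((L v σ').det) := by
          have := (RingHom.map_det (σ' : M →+* M) (L v σ')).symm
          simpa [RingHom.mapMatrix_apply] using this
        rw [h1]
        intro h2
        exact hdet v hv σ' ((map_eq_zero_iff σ' σ'.injective).mp h2)
      have h3 : (fun k => ∑ l, σ' (ω l) * X (f.symm (k, l))) = 0 := by
        refine Matrix.eq_zero_of_mulVec_eq_zero hdet' ?_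
        funext i
        have h4 := congrFun (hρ0 i) σ'
        simp only [Pi.zero_apply, hρ] at h4
        rw [Pi.zero_apply, ← h4]
        simp only [Matrix.mulVec, dotProduct, Matrix.map_apply]
        rw [← Equiv.sum_comp f.symm, Fintype.sum_prod_type]
        apply Finset.sum_congr rfl
        intro k _
        rw [Finset.mul_sum]
        apply Finset.sum_congr rfl
        intro l _
        rw [Equiv.apply_symm_apply, map_mul]
        ring
      intro k
      exact congrFun h3 k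
    funext J
    have h5 := hinj (fun l => X (f.symm ((f J).1, l))) (fun σ' => hY σ' (f J).1)
    have h6 := congrFun h5 (f J).2
    simp only [Pi.zero_apply, Prod.mk.eta, Equiv.symm_apply_apply] at h6
    exact h6
  · -- rationality
    intro v hv I J
    apply hRAT M S P hS v hv
    intro τ hτ
    simp only [hA]
    set m : M := g v (e I).1 * L v (e I).1 (e I).2 (f J).1 * ω (f J).2 with hm
    set F : (M ≃ₐ[ℚ] M) → M := fun σ' => if r v (e I).1 σ' then σ' m else 0 with hF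
    have h1 : τ (∑ σ' : M ≃ₐ[ℚ] M, F σ') = ∑ σ' : M ≃ₐ[ℚ] M, F (τ * σ') := by
      rw [map_sum]
      apply Finset.sum_congr rfl
      intro σ' _
      have h2 : r v (e I).1 (τ * σ') ↔ r v (e I).1 σ' := by
        simp only [hr]
        constructor
        · intro h x
          rw [h x, AlgEquiv.mul_apply, hτ]
        · intro h x
          rw [h x, AlgEquiv.mul_apply, hτ]
      simp only [hF]
      by_cases h : r v (e I).1 σ'
      · rw [if_pos h, if_pos (h2.2 h), AlgEquiv.mul_apply]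
      · rw [if_neg h, if_neg (fun h3 => h (h2.1 h3)), map_zero]
    exact h1.trans (Equiv.sum_comp (Equiv.mulLeft τ) F)
  · -- the bound
    intro v hv X I b hb
    set σ := (e I).1 with hσ
    set i := (e I).2 with hi
    set y : M := (L v σ).mulVec (fun k => ∑ l, (X (f.symm (k, l)) : M) * ω l) i with hy
    have hb0 : 0 ≤ b := (P.nn _ _).trans hb
    have h1 : (A v).mulVec (cM X) I = ∑ σ' : M ≃ₐ[ℚ] M, if r v σ σ' then σ' (g v σ * y) else 0 := by
      have h2 : ∀ σ' : M ≃ₐ[ℚ] M, σ' (g v σ * y) =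
          ∑ J, σ' (g v σ * L v σ i (f J).1 * ω (f J).2) * (X J : M) := by
        intro σ'
        have h3 : g v σ * y = ∑ J, (g v σ * L v σ i (f J).1 * ω (f J).2) * (X J : M) := by
          rw [hy]
          simp only [Matrix.mulVec, dotProduct]
          rw [← Equiv.sum_comp f.symm, Fintype.sum_prod_type, Finset.mul_sum]
          apply Finset.sum_congr rfl
          intro k _
          rw [Finset.mul_sum, Finset.mul_sum]
          apply Finset.sum_congr rfl
          intro l _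
          rw [Equiv.apply_symm_apply]
          ring
        rw [h3, map_sum]
        apply Finset.sum_congr rfl
        intro J _
        rw [map_mul σ' _ (X J : M), map_intCast]
      simp only [Matrix.mulVec, dotProduct, hA, cM]
      rw [Finset.sum_congr rfl fun J _ => Finset.sum_mul _ _ _, Finset.sum_comm]
      apply Finset.sum_congr rfl
      intro σ' _
      by_cases h : r v σ σ'
      · rw [if_pos h, h2 σ']
        exact Finset.sum_congr rfl fun J _ => by rw [if_pos h]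
      · rw [if_neg h]
        exact Finset.sum_eq_zero fun J _ => by rw [if_neg h, zero_mul]
    rw [h1]
    calc P.nv v (∑ σ' : M ≃ₐ[ℚ] M, if r v σ σ' then σ' (g v σ * y) else 0)
        ≤ ∑ σ' : M ≃ₐ[ℚ] M, P.nv v (if r v σ σ' then σ' (g v σ * y) else 0) := P.sum_le hv _ _
      _ ≤ ∑ σ' : M ≃ₐ[ℚ] M, P.nv v (σ' (g v σ)) * b := by
          apply Finset.sum_le_sum
          intro σ' _
          by_cases h : r v σ σ'
          · rw [if_pos h, map_mul, P.mul v hv]
            apply mul_le_mul_of_nonneg_left _ (P.nn _ _)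
            rw [← h y]
            exact hb
          · rw [if_neg h, P.nz]
            exact mul_nonneg (P.nn _ _) hb0
      _ = (∑ σ' : M ≃ₐ[ℚ] M, P.nv v (σ' (g v σ))) * b := by rw [Finset.sum_mul]
      _ ≤ K0 * b := mul_le_mul_of_nonneg_right (hK0sum v hv σ) hb0

end Pool.Agent.Helper77.SUBK
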