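import Pool.Agent.Helper77.SUBK.Base

/-!
Project SUBK, first sheet: the rows of project SUB with coefficients in a number field `M`.
Every statement is the statement of the row of project SUB (same name without the final `M`) with
`ℚ` replaced by `M` for the coefficients of the linear forms, `av v` by `P.nv v`, `cv` by `cM`,
`mQ` by `mM`, `toQ` by `toM`; integral vectors, polynomials with integral coefficients, the vectors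
`h`, `u`, `l`, `g` are as before.  New: the hypothesis `RtM P A` (entries in the closure of `ℚ`)
wherever a lattice is constructed.
-/

set_option autoImplicit false

namespace Pool.Agent.Helper77.SUBK

open Finset Matrix Pool.Agent.Helper70.SUB

/-! ## A. The auxiliary polynomial -/

/-- (LSBM) size and homogeneity under a linear substitution, for any submultiplicative function -/
def ST_LSBM : Prop := ∀ (M : Type) [Field M] [NumberField M] (ν : M → ℝ), (∀ x, 0 ≤ ν x) →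
  ν 0 = 0 → (∀ z : ℤ, ν (z : M) ≤ |(z : ℝ)|) → (∀ x y, ν (x * y) ≤ ν x * ν y) →
  (∀ x y, ν (x + y) ≤ ν x + ν y) → ∀ (m n : ℕ) (r : Fin m → ℕ)
  (F : MvPolynomial (Fin m × Fin n) ℤ) (N : Matrix (Fin n) (Fin n) M) (a : ℝ), 0 ≤ a →
  (∀ i k, ν (N i k) ≤ a) → MH r F →
  MH r (lsub N (toM F)) ∧
  ∑ J ∈ (lsub N (toM F)).support, ν ((lsub N (toM F)).coeff J) ≤ (n * a) ^ (∑ h, r h) * l1 F ∧
  ((∀ x y, ν (x + y) ≤ max (ν x) (ν y)) → (∀ z : ℤ, ν (z : M) ≤ 1) →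
    ∀ J, ν ((lsub N (toM F)).coeff J) ≤ a ^ (∑ h, r h))

/-- (SIEGM) the auxiliary polynomial; use the left regular representation `M → Mat ℚ` and common
denominators: `d ^ 2` times as many integral equations -/
def ST_SIEGM : Prop := ∀ (M : Type) [Field M] [NumberField M] (n : ℕ) (κ : Type) [Fintype κ]
  (N : κ → Matrix (Fin n) (Fin n) M) (ε : ℝ),
  1 ≤ n → 0 < ε → ∃ m0 : ℕ, ∀ m, m0 ≤ m → ∃ C : ℝ, 1 ≤ C ∧ ∀ r : Fin m → ℕ, (∀ h, 1 ≤ r h) →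
    ∃ F : MvPolynomial (Fin m × Fin n) ℤ, F ≠ 0 ∧ MH r F ∧
      (∀ J, |((F.coeff J : ℤ) : ℝ)| ≤ C ^ (∑ h, r h)) ∧
      ∀ v J, (lsub (N v) (toM F)).coeff J ≠ 0 →
        ∀ i, |∑ h, (J (h, i) : ℝ) / r h - m / n| ≤ ε * m

/-- (DSUPM) the support of a derivative after a linear substitution, over any field -/
def ST_DSUPM : Prop := ∀ (M : Type) [Field M],
  (∀ (m n : ℕ) (N : Matrix (Fin n) (Fin n) M)
    (F : MvPolynomial (Fin m × Fin n) M) (J0 J : Fin m × Fin n →₀ ℕ), N.det ≠ 0 →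
    (lsub N (hd J0 F)).coeff J ≠ 0 →
    ∃ J' : Fin m × Fin n →₀ ℕ, (∀ h, ∑ i, J' (h, i) = ∑ i, J0 (h, i)) ∧
      (lsub N F).coeff (J + J') ≠ 0) ∧
  (∀ (σ : Type) [Fintype σ] [DecidableEq σ] (F : MvPolynomial σ ℤ) (J : σ →₀ ℕ),
    (toM (hd J F) : MvPolynomial σ M) = hd J (toM F))

/-- (EVALM) the size of the values: `N (A x) = x` -/
def ST_EVALM : Prop := ∀ (M : Type) [Field M] [NumberField M] (S : Finset ℕ) (P : PF S M)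
  (m n : ℕ), (∀ p ∈ S, p.Prime) → ∀ v ∈ plc S,
  ∀ (A N : Matrix (Fin n) (Fin n) M) (C : ℝ), N * A = 1 → (∀ i k, (n : ℝ) * P.nv v (N i k) ≤ C) →
  1 ≤ C →
  ∀ (r : Fin m → ℕ) (F : MvPolynomial (Fin m × Fin n) ℤ) (x : Fin m → Fin n → ℤ) (b : ℝ),
    MH r F → 0 ≤ b →
    (∀ J, (lsub N (toM F)).coeff J ≠ 0 →
      ∏ hi : Fin m × Fin n, (P.nv v (A.mulVec (cM (x hi.1)) hi.2)) ^ (J hi) ≤ b) →
    av v ((MvPolynomial.eval (bl x) F : ℤ) : ℚ) ≤ C ^ (∑ h, r h) * (l1 F : ℝ) * b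

/-- (VANM) vanishing at small points -/
def ST_VANM : Prop := ∀ (M : Type) [Field M] [NumberField M] (S : Finset ℕ) (P : PF S M)
  (n : ℕ) (A : Option ℕ → Matrix (Fin n) (Fin n) M)
  (c : Option ℕ → Fin n → ℝ) (δ : ℝ), 1 ≤ n → (∀ p ∈ S, p.Prime) →
  (∀ v ∈ plc S, (A v).det ≠ 0) → ∑ v ∈ plc S, ∑ i, c v i ≤ 0 → 0 < δ →
  ∃ (θ ρ : ℝ) (m : ℕ), 0 < θ ∧ 0 < ρ ∧ 1 ≤ m ∧ ∀ K : ℝ, 1 ≤ K → ∃ C : ℝ, 1 ≤ C ∧
  ∀ (r : Fin m → ℕ) (Q : Fin m → ℝ) (L : ℝ), (∀ h, 1 ≤ r h) → 0 < L →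
    (∀ h, C ≤ Q h ∧ L ≤ r h * Real.log (Q h) ∧ r h * Real.log (Q h) ≤ (1 + ρ) * L) →
    ∃ F : MvPolynomial (Fin m × Fin n) ℤ, F ≠ 0 ∧ MH r F ∧
      (∀ J, |((F.coeff J : ℤ) : ℝ)| ≤ C ^ (∑ h, r h)) ∧
      ∀ J0 : Fin m × Fin n →₀ ℕ, ∑ hi : Fin m × Fin n, (J0 hi : ℝ) / r hi.1 ≤ θ →
        ∀ x : Fin m → Fin n → ℤ,
          (∀ v ∈ plc S, ∀ h i, P.nv v ((A v).mulVec (cM (x h)) i)
            ≤ K * Q h ^ (c v i - if v = none then δ else 0)) →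
          MvPolynomial.eval (bl x) (hd J0 F) = 0

/-- (RMM) the Roth machine -/
def ST_RMM : Prop := ∀ (M : Type) [Field M] [NumberField M] (S : Finset ℕ) (P : PF S M)
  (k : ℕ) (A : Option ℕ → Matrix (Fin (k + 1)) (Fin (k + 1)) M)
  (c : Option ℕ → Fin (k + 1) → ℝ) (δ τ : ℝ), 1 ≤ k → (∀ p ∈ S, p.Prime) →
  (∀ v ∈ plc S, (A v).det ≠ 0) → ∑ v ∈ plc S, ∑ i, c v i ≤ 0 → 0 < δ → 0 < τ →
  ∀ (M1 : Set ℕ) (Q : ℕ → ℝ) (g : ℕ → Fin k → Fin (k + 1) → ℤ) (l : ℕ → Fin (k + 1) → ℤ),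
    M1.Infinite → Filter.Tendsto Q Filter.atTop Filter.atTop →
    (∀ j ∈ M1, LinearIndependent ℚ (fun a => cv (g j a)) ∧ Prim (l j) ∧
      (∀ a, ∑ i, l j i * g j a i = 0) ∧
      (∀ v ∈ plc S, ∀ a i, P.nv v ((A v).mulVec (cM (g j a)) i)
        ≤ Q j ^ (c v i - if v = none then δ else 0)) ∧
      ∃ i, Q j ^ τ ≤ |(l j i : ℝ)|) → False

/-! ## B. Lattices -/

/-- (LATPM) the lattice of the integral points of a `p`-adic box, `p ∈ S` -/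
def ST_LATPM : Prop := ∀ (M : Type) [Field M] [NumberField M] (S : Finset ℕ) (P : PF S M)
  (N : ℕ) (A : Option ℕ → Matrix (Fin N) (Fin N) M) (K : ℝ),
  (∀ p ∈ S, p.Prime) → (∀ v ∈ plc S, (A v).det ≠ 0) → RtM P A → 1 ≤ K →
  ∃ C : ℝ, 1 ≤ C ∧ ∀ s : Option ℕ → Fin N → ℝ, (∀ v ∈ plc S, ∀ i, 0 < s v i) →
    (∀ p ∈ S, ∀ i, s (some p) i ≤ K) →
  ∃ B : Matrix (Fin N) (Fin N) ℤ, B.det ≠ 0 ∧
    (∀ q : ℕ, q.Prime → (q : ℤ) ∣ B.det → q ∈ S) ∧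
    (∀ p ∈ S, ∀ i k, P.nv (some p) ((A (some p) * mM M B) i k) ≤ s (some p) i) ∧
    (∀ p ∈ S, ∀ k i, P.nv (some p) (((A (some p) * mM M B)⁻¹) k i) * s (some p) i ≤ C) ∧
    (∀ x : Fin N → ℤ, (∀ p ∈ S, ∀ i, P.nv (some p) ((A (some p)).mulVec (cM x) i)
      ≤ s (some p) i) → ∃ z : Fin N → ℤ, x = B.mulVec z)

/-- the conclusion of `ST_BASM`: a reduced basis of the lattice of a box; `C` is the constant -/
structure BasM {M : Type} [Field M] [NumberField M] {S : Finset ℕ} (P : PF S M) (N : ℕ)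
    (A : Option ℕ → Matrix (Fin N) (Fin N) M)
    (s : Option ℕ → Fin N → ℝ) (C : ℝ) (B : Matrix (Fin N) (Fin N) ℤ) (lam : Fin N → ℝ) :
    Prop where
  det_ne : B.det ≠ 0
  det_S : ∀ q : ℕ, q.Prime → (q : ℤ) ∣ B.det → q ∈ S
  pos : ∀ k, 0 < lam k
  mono : Monotone lam
  fin_le : ∀ p ∈ S, ∀ i k, P.nv (some p) ((A (some p) * mM M B) i k) ≤ s (some p) i
  fin_inv : ∀ p ∈ S, ∀ k i, P.nv (some p) (((A (some p) * mM M B)⁻¹) k i) * s (some p) i ≤ C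
  inf_le : ∀ i k, P.nv none ((A none * mM M B) i k) ≤ C * s none i * lam k
  inf_inv : ∀ k i, P.nv none (((A none * mM M B)⁻¹) k i) * (lam k * s none i) ≤ C
  mem : ∀ x : Fin N → ℤ,
    (∀ p ∈ S, ∀ i, P.nv (some p) ((A (some p)).mulVec (cM x) i) ≤ s (some p) i) →
      ∃ z : Fin N → ℤ, x = B.mulVec z

/-- (BASM) combination of `ST_LATPM` and `ST_REDB` (`Rt.real`: the real matrix is the real part of
`P.emb (A none)`) -/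
def ST_BASM : Prop := ∀ (M : Type) [Field M] [NumberField M] (S : Finset ℕ) (P : PF S M)
  (N : ℕ) (A : Option ℕ → Matrix (Fin N) (Fin N) M) (K : ℝ),
  (∀ p ∈ S, p.Prime) → (∀ v ∈ plc S, (A v).det ≠ 0) → RtM P A → 1 ≤ K →
  ∃ C : ℝ, 1 ≤ C ∧ ∀ s : Option ℕ → Fin N → ℝ, (∀ v ∈ plc S, ∀ i, 0 < s v i) →
    (∀ p ∈ S, ∀ i, s (some p) i ≤ K) →
  ∃ (B : Matrix (Fin N) (Fin N) ℤ) (lam : Fin N → ℝ), BasM P N A s C B lam

/-- (VOLM) the volume of the box -/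
def ST_VOLM : Prop := ∀ (M : Type) [Field M] [NumberField M] (S : Finset ℕ) (P : PF S M)
  (N : ℕ) (A : Option ℕ → Matrix (Fin N) (Fin N) M) (C : ℝ),
  (∀ p ∈ S, p.Prime) → (∀ v ∈ plc S, (A v).det ≠ 0) → 1 ≤ C →
  ∃ C' : ℝ, 1 ≤ C' ∧ ∀ (s : Option ℕ → Fin N → ℝ) (B : Matrix (Fin N) (Fin N) ℤ)
    (lam : Fin N → ℝ), (∀ v ∈ plc S, ∀ i, 0 < s v i) → BasM P N A s C B lam →
    1 / C' ≤ (∏ v ∈ plc S, ∏ i, s v i) * ∏ k, lam k ∧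
    (∏ v ∈ plc S, ∏ i, s v i) * ∏ k, lam k ≤ C'

/-- (COEFM) coordinates of small vectors: `x = B z`, `|z k| ≤ N C μ / lam k` -/
def ST_COEFM : Prop := ∀ (M : Type) [Field M] [NumberField M] (S : Finset ℕ) (P : PF S M)
  (N : ℕ) (A : Option ℕ → Matrix (Fin N) (Fin N) M)
  (s : Option ℕ → Fin N → ℝ) (C : ℝ) (B : Matrix (Fin N) (Fin N) ℤ) (lam : Fin N → ℝ),
  (∀ p ∈ S, p.Prime) → (∀ v ∈ plc S, (A v).det ≠ 0) → (∀ v ∈ plc S, ∀ i, 0 < s v i) →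
  BasM P N A s C B lam →
  ∀ (z : Fin N → ℤ) (μ : ℝ),
    (∀ i, P.nv none ((A none).mulVec (cM (B.mulVec z)) i) ≤ μ * s none i) →
    ∀ k, |(z k : ℝ)| * lam k ≤ N * C * μ

/-! ## C. Theorem G -/

/-- the hypotheses of Theorem G for one member of the sequence -/
structure GHypM {M : Type} [Field M] [NumberField M] {S : Finset ℕ} (P : PF S M) (N : ℕ)
    (A : Option ℕ → Matrix (Fin N) (Fin N) M)
    (s : Option ℕ → Fin N → ℝ) (μ ν : ℝ) (h : Fin N → ℤ) : Prop where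
  prim : Prim h
  spos : ∀ v ∈ plc S, ∀ i, 0 < s v i
  mupos : 0 < μ
  nupos : 0 < ν
  ann : ∀ y : Fin N → ℚ, (∀ x : Fin N → ℤ,
      (∀ v ∈ plc S, ∀ i, P.nv v ((A v).mulVec (cM x) i) ≤ (if v = none then μ else 1) * s v i) →
        ∑ i, y i * x i = 0) → ∃ c : ℚ, ∀ i, y i = c * h i
  dual : ∃ t : Option ℕ → ℝ, (∀ v ∈ plc S, 0 < t v) ∧
    (∀ v ∈ plc S, ∀ i, P.nv v (((A v)⁻¹)ᵀ.mulVec (cM h) i) * s v i ≤ t v) ∧
    ∏ v ∈ plc S, t v ≤ 1 / ν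

/-- the hypotheses of Theorem G for the whole sequence -/
structure GSeqM {M : Type} [Field M] [NumberField M] {S : Finset ℕ} (P : PF S M) (N : ℕ)
    (A : Option ℕ → Matrix (Fin N) (Fin N) M) (K a δ : ℝ)
    (M1 : Set ℕ) (Q : ℕ → ℝ) (s : ℕ → Option ℕ → Fin N → ℝ) (μ ν : ℕ → ℝ) (h : ℕ → Fin N → ℤ) :
    Prop where
  inf : M1.Infinite
  lim : Filter.Tendsto Q Filter.atTop Filter.atTop
  hyp : ∀ j ∈ M1, GHypM P N A (s j) (μ j) (ν j) (h j)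
  sK : ∀ j ∈ M1, ∀ p ∈ S, ∀ i, s j (some p) i ≤ K
  lo : ∀ j ∈ M1, ∀ v ∈ plc S, ∀ i, Q j ^ (-a) ≤ s j v i
  up : ∀ j ∈ M1, ∀ v ∈ plc S, ∀ i, s j v i ≤ Q j ^ a
  gap : ∀ j ∈ M1, μ j ≤ Q j ^ (-δ) * ν j

/-- (QUOM) passage to a quotient; the new matrices are rational expressions in the old ones, so
`RtM` is kept -/
def ST_QUOM : Prop := ∀ (M : Type) [Field M] [NumberField M] (S : Finset ℕ) (P : PF S M)
  (N : ℕ) (A : Option ℕ → Matrix (Fin (N + 1)) (Fin (N + 1)) M)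
  (K a δ : ℝ) (M1 : Set ℕ) (Q : ℕ → ℝ) (s : ℕ → Option ℕ → Fin (N + 1) → ℝ) (μ ν : ℕ → ℝ)
  (h : ℕ → Fin (N + 1) → ℤ) (u : Fin (N + 1) → ℚ), 1 ≤ N → (∀ p ∈ S, p.Prime) →
  (∀ v ∈ plc S, (A v).det ≠ 0) → RtM P A → 1 ≤ K → 0 < a → 0 < δ →
  GSeqM P (N + 1) A K a δ M1 Q s μ ν h → u ≠ 0 → (∀ j ∈ M1, ∑ i, u i * h j i = 0) →
  ∃ (A' : Option ℕ → Matrix (Fin N) (Fin N) M) (K' a' δ' : ℝ) (M' : Set ℕ)
    (s' : ℕ → Option ℕ → Fin N → ℝ) (μ' ν' : ℕ → ℝ) (h' : ℕ → Fin N → ℤ)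
    (T : Matrix (Fin (N + 1)) (Fin N) ℤ), (∀ v ∈ plc S, (A' v).det ≠ 0) ∧ RtM P A' ∧
    1 ≤ K' ∧ 0 < a' ∧ 0 < δ' ∧ M' ⊆ M1 ∧ GSeqM P N A' K' a' δ' M' Q s' μ' ν' h' ∧
    ∀ j ∈ M', h j = T.mulVec (h' j)

/-- (SPANM) first consequences of `GHypM` and `BasM` -/
def ST_SPANM : Prop := ∀ (M : Type) [Field M] [NumberField M] (S : Finset ℕ) (P : PF S M)
  (k : ℕ) (A : Option ℕ → Matrix (Fin (k + 1)) (Fin (k + 1)) M)
  (C : ℝ), 1 ≤ k → (∀ p ∈ S, p.Prime) → (∀ v ∈ plc S, (A v).det ≠ 0) → 1 ≤ C →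
  ∃ C' : ℝ, 1 ≤ C' ∧ ∀ (s : Option ℕ → Fin (k + 1) → ℝ) (μ ν : ℝ) (h : Fin (k + 1) → ℤ)
    (B : Matrix (Fin (k + 1)) (Fin (k + 1)) ℤ) (lam : Fin (k + 1) → ℝ),
    GHypM P (k + 1) A s μ ν h → BasM P (k + 1) A s C B lam → C' * μ < ν →
    (∀ l : Fin (k + 1), (l : ℕ) < k → lam l ≤ C' * μ ∧ ∑ i, h i * B i l = 0) ∧
    (ν ≤ C' * lam (Fin.last k)) ∧
    ∃ t : Option ℕ → ℝ, (∀ v ∈ plc S, 0 < t v) ∧
      (∀ v ∈ plc S, ∀ i, P.nv v (((A v)⁻¹)ᵀ.mulVec (cM h) i) * s v i ≤ t v) ∧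
      ∏ v ∈ plc S, t v ≤ C' / lam (Fin.last k)

/-- (LIOM) Liouville's inequality (norm as a product over the embeddings; `N w / w` is an algebraic
integer) -/
def ST_LIOM : Prop := ∀ (M : Type) [Field M] [NumberField M] (S : Finset ℕ) (P : PF S M)
  (w : M) (D : ℕ) (H : ℝ), (∀ p ∈ S, p.Prime) → w ≠ 0 → 1 ≤ D → IsIntegral ℤ ((D : M) * w) →
  (∀ φ : M →+* ℂ, ‖φ w‖ ≤ H) → 1 ≤ H →
  ∀ v ∈ plc S, 1 ≤ ((D : ℝ) * H) ^ (Module.finrank ℚ M) * P.nv v w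

/-- (HLOWM) lower bound for the height of `h` in the nondegenerate case; uses `ST_LIOM` -/
def ST_HLOWM : Prop := ∀ (M : Type) [Field M] [NumberField M] (S : Finset ℕ) (P : PF S M)
  (k : ℕ) (A : Option ℕ → Matrix (Fin (k + 1)) (Fin (k + 1)) M)
  (C δ : ℝ), 1 ≤ k → (∀ p ∈ S, p.Prime) → (∀ v ∈ plc S, (A v).det ≠ 0) → 1 ≤ C → 0 < δ →
  ∃ (τ Q0 : ℝ), 0 < τ ∧ ∀ (Q : ℝ) (s : Option ℕ → Fin (k + 1) → ℝ) (h : Fin (k + 1) → ℤ)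
    (lam : Fin (k + 1) → ℝ) (t : Option ℕ → ℝ), Q0 ≤ Q → (∀ v ∈ plc S, ∀ i, 0 < s v i) →
    (∀ l, 0 < lam l) → 1 / C ≤ (∏ v ∈ plc S, ∏ i, s v i) * ∏ l, lam l →
    (∀ l : Fin (k + 1), (l : ℕ) < k → lam l ≤ Q ^ (-δ) * lam (Fin.last k)) →
    (∀ v ∈ plc S, ∀ i, ((A v)⁻¹)ᵀ.mulVec (cM h) i ≠ 0) → (∀ v ∈ plc S, 0 < t v) →
    (∀ v ∈ plc S, ∀ i, P.nv v (((A v)⁻¹)ᵀ.mulVec (cM h) i) * s v i ≤ t v) →
    ∏ v ∈ plc S, t v ≤ C / lam (Fin.last k) → ∃ i, Q ^ τ ≤ |(h i : ℝ)|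

/-- (BOXM) the new box of Davenport's lemma -/
def ST_BOXM : Prop := ∀ (M : Type) [Field M] [NumberField M] (S : Finset ℕ) (P : PF S M)
  (k : ℕ) (A : Option ℕ → Matrix (Fin (k + 1)) (Fin (k + 1)) M)
  (C a δ : ℝ), 1 ≤ k → (∀ p ∈ S, p.Prime) → (∀ v ∈ plc S, (A v).det ≠ 0) → RtM P A →
  1 ≤ C → 0 < a → 0 < δ →
  ∃ (C' a' Q0 : ℝ), 1 ≤ C' ∧ 0 < a' ∧ ∀ (Q : ℝ) (s : Option ℕ → Fin (k + 1) → ℝ)
    (h : Fin (k + 1) → ℤ) (B : Matrix (Fin (k + 1)) (Fin (k + 1)) ℤ) (lam : Fin (k + 1) → ℝ),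
    Q0 ≤ Q → (∀ v ∈ plc S, ∀ i, Q ^ (-a) ≤ s v i ∧ s v i ≤ Q ^ a) →
    BasM P (k + 1) A s C B lam →
    (∀ l : Fin (k + 1), (l : ℕ) < k → ∑ i, h i * B i l = 0) →
    (∀ l : Fin (k + 1), (l : ℕ) < k → lam l ≤ Q ^ (-δ) * lam (Fin.last k)) →
    ∃ (s' : Option ℕ → Fin (k + 1) → ℝ) (g : Fin k → Fin (k + 1) → ℤ),
      (∀ v ∈ plc S, ∀ i, Q ^ (-a') ≤ s' v i ∧ s' v i ≤ Q ^ a') ∧
      (∏ v ∈ plc S, ∏ i, s' v i ≤ C') ∧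
      LinearIndependent ℚ (fun b => cv (g b)) ∧ (∀ b, ∑ i, h i * g b i = 0) ∧
      (∀ v ∈ plc S, ∀ b i, P.nv v ((A v).mulVec (cM (g b)) i)
        ≤ C' * s' v i * if v = none then Q ^ (-(δ / (k + 1))) else 1)

/-- (NDGM) the nondegenerate case, from SPANM, HLOWM, BOXM, BASM, VOLM, CPT, RMM; in the
degenerate case a relation over `M` gives one over `ℚ` (coordinates) -/
def ST_NDGM : Prop := ∀ (M : Type) [Field M] [NumberField M] (S : Finset ℕ) (P : PF S M)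
  (k : ℕ) (A : Option ℕ → Matrix (Fin (k + 1)) (Fin (k + 1)) M)
  (K a δ : ℝ) (M1 : Set ℕ) (Q : ℕ → ℝ) (s : ℕ → Option ℕ → Fin (k + 1) → ℝ) (μ ν : ℕ → ℝ)
  (h : ℕ → Fin (k + 1) → ℤ), 1 ≤ k → (∀ p ∈ S, p.Prime) → (∀ v ∈ plc S, (A v).det ≠ 0) →
  RtM P A → 1 ≤ K → 0 < a → 0 < δ → GSeqM P (k + 1) A K a δ M1 Q s μ ν h →
  ∃ u : Fin (k + 1) → ℚ, u ≠ 0 ∧ {j | j ∈ M1 ∧ ∑ i, u i * h j i = 0}.Infinite

/-- (THGM) Theorem G, by induction on `N` from NDGM and QUOM -/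
def ST_THGM : Prop := ∀ (M : Type) [Field M] [NumberField M] (S : Finset ℕ) (P : PF S M)
  (N : ℕ) (A : Option ℕ → Matrix (Fin N) (Fin N) M)
  (K a δ : ℝ) (M1 : Set ℕ) (Q : ℕ → ℝ) (s : ℕ → Option ℕ → Fin N → ℝ) (μ ν : ℕ → ℝ)
  (h : ℕ → Fin N → ℤ), 1 ≤ N → (∀ p ∈ S, p.Prime) → (∀ v ∈ plc S, (A v).det ≠ 0) →
  RtM P A → 1 ≤ K → 0 < a → 0 < δ → GSeqM P N A K a δ M1 Q s μ ν h →
  ∃ h0 : Fin N → ℤ, {j | j ∈ M1 ∧ h j = h0}.Infinite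

/-! ## D. Compounds and the parametric Subspace theorem -/

/-- compound matrix with `Fin` indices -/
noncomputable def cmpFM {n : ℕ} {R : Type} [CommRing R] (p : ℕ) (A : Matrix (Fin n) (Fin n) R) :
    Matrix (Fin (Fintype.card {I : Finset (Fin n) // I.card = p}))
      (Fin (Fintype.card {I : Finset (Fin n) // I.card = p})) R :=
  (cmp p A).submatrix (enu n p).symm (enu n p).symm

/-- (CBM) Cauchy-Binet -/
def ST_CBM : Prop := ∀ (M : Type) [Field M] [NumberField M] (n p : ℕ),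
  (∀ A B : Matrix (Fin n) (Fin n) M, cmp p (A * B) = cmp p A * cmp p B) ∧
  (cmp p (1 : Matrix (Fin n) (Fin n) M) = 1) ∧
  (∀ A : Matrix (Fin n) (Fin n) M, cmp p Aᵀ = (cmp p A)ᵀ) ∧
  (∀ A : Matrix (Fin n) (Fin n) M, A.det ≠ 0 → (cmp p A).det ≠ 0 ∧ cmp p A⁻¹ = (cmp p A)⁻¹) ∧
  (∀ B : Matrix (Fin n) (Fin n) ℤ, ∀ I J, cmp p (mM M B) I J
    = ((cmp p (mQ B) I J : ℚ) : M)) ∧
  (∀ (S : Finset ℕ) (P : PF S M) (v : Option ℕ) (A : Matrix (Fin n) (Fin n) M) (s t : Fin n → ℝ)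
    (C : ℝ), (∀ q ∈ S, q.Prime) → v ∈ plc S → (∀ i, 0 ≤ s i) → (∀ i, 0 ≤ t i) → 0 ≤ C →
    (∀ i k, P.nv v (A i k) ≤ C * s i * t k) →
    ∀ I J, P.nv v (cmp p A I J)
      ≤ (p.factorial : ℝ) * C ^ p * (∏ i ∈ I.1, s i) * ∏ k ∈ J.1, t k) ∧
  (∀ (S : Finset ℕ) (P : PF S M) (v : Option ℕ) (A : Matrix (Fin n) (Fin n) M), v ∈ plc S →
    (∀ i k, Rt P v (A i k)) → ∀ I J, Rt P v (cmp p A I J))

/-- (PARHM) the hypotheses of Theorem G for the compound -/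
def ST_PARHM : Prop := ∀ (M : Type) [Field M] [NumberField M] (S : Finset ℕ) (P : PF S M)
  (n q : ℕ) (A : Option ℕ → Matrix (Fin n) (Fin n) M) (C : ℝ),
  (∀ p ∈ S, p.Prime) → (∀ v ∈ plc S, (A v).det ≠ 0) → 1 ≤ C → ∀ (hq : 1 ≤ q) (hqn : q < n),
  ∃ C' : ℝ, 1 ≤ C' ∧ ∀ (s : Option ℕ → Fin n → ℝ) (B : Matrix (Fin n) (Fin n) ℤ) (lam : Fin n → ℝ)
    (top : {I : Finset (Fin n) // I.card = n - q}),
    (∀ v ∈ plc S, ∀ i, 0 < s v i) → BasM P n A s C B lam →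
    top.1 = Finset.univ.filter (fun l : Fin n => q ≤ (l : ℕ)) →
    ∃ (h : Fin (Fintype.card {I : Finset (Fin n) // I.card = n - q}) → ℤ) (w : ℚ), w ≠ 0 ∧
      (∀ I, cmp (n - q) ((mQ B)⁻¹)ᵀ I top = w * h (enu n (n - q) I)) ∧
      GHypM P (Fintype.card {I : Finset (Fin n) // I.card = n - q})
        (fun v => cmpFM (n - q) (A v))
        (fun v I => ∏ i ∈ ((enu n (n - q)).symm I).1, s v i)
        (C' * (lam ⟨q - 1, by omega⟩ * ∏ l ∈ Finset.univ.filter (fun l : Fin n => q < (l : ℕ)), lam l))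
        ((∏ l ∈ Finset.univ.filter (fun l : Fin n => q ≤ (l : ℕ)), lam l) / C') h

/-- (PARM) the parametric Subspace theorem, strong form: infinitely many of the boxes have all
their integral points in one hyperplane (take `s v i = K * Q j ^ (c v i)`; if only finitely many
boxes contain a nonzero point, any `u` works; otherwise all points of the box are combinations of
the first `q` vectors of the basis, the number `C` of GAPX is chosen after COEFM) -/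
def ST_PARM : Prop := ∀ (M : Type) [Field M] [NumberField M] (S : Finset ℕ) (P : PF S M)
  (n : ℕ) (A : Option ℕ → Matrix (Fin n) (Fin n) M)
  (c : Option ℕ → Fin n → ℝ) (M1 : Set ℕ) (Q : ℕ → ℝ) (K : ℝ), 1 ≤ n →
  (∀ p ∈ S, p.Prime) → (∀ v ∈ plc S, (A v).det ≠ 0) → RtM P A → (∀ p ∈ S, ∀ i, c (some p) i ≤ 0) →
  ∑ v ∈ plc S, ∑ i, c v i < 0 → M1.Infinite → Filter.Tendsto Q Filter.atTop Filter.atTop →
  1 ≤ K →
  ∃ u : Fin n → ℚ, u ≠ 0 ∧ {j | j ∈ M1 ∧ ∀ x : Fin n → ℤ,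
    (∀ v ∈ plc S, ∀ i, P.nv v ((A v).mulVec (cM x) i) ≤ K * Q j ^ (c v i)) →
      ∑ i, u i * (x i : ℚ) = 0}.Infinite

end Pool.Agent.Helper77.SUBK
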