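import Pool.Agent.Helper77.SUB.VAN
import Pool.Agent.Helper77.SUBK.SheetP

/-!
Project SUBK, row VANM: vanishing at small points, coefficients of the forms in a number field.
-/

set_option autoImplicit false

namespace Pool.Agent.Helper77.SUBK

open Finset Pool.Agent.Helper70.SUB

/-- (VANM) -/
theorem VANM (hAV : ST_AV) (hHD : ST_HD) (hL1 : ST_L1) (hLSBM : ST_LSBM) (hSIEGM : ST_SIEGM)
    (hDSUPM : ST_DSUPM) (hEVALM : ST_EVALM) : ST_VANM := by
  intro M _ _ S P n A c δ hn hS hA hc hδ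
  set N : {v // v ∈ plc S} → Matrix (Fin n) (Fin n) M := fun v => (A v)⁻¹ with hNdef
  have hNA : ∀ v : {v // v ∈ plc S}, N v * A v = 1 := fun v =>
    Matrix.nonsing_inv_mul (A v) (isUnit_iff_ne_zero.mpr (hA v v.2))
  set γ : Option ℕ → Fin n → ℝ := fun v i => c v i - if v = none then δ else 0 with hγ
  set Γ : ℝ := 1 + ∑ v ∈ plc S, ∑ i, |γ v i| with hΓ
  have hΓ0 : 0 ≤ ∑ v ∈ plc S, ∑ i, |γ v i| :=
    Finset.sum_nonneg fun v _ => Finset.sum_nonneg fun i _ => abs_nonneg _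
  have hΓ1 : 1 ≤ Γ := by rw [hΓ]; linarith
  set ε : ℝ := δ / (8 * Γ) with hε
  have hε0 : 0 < ε := by rw [hε]; positivity
  have hεΓ : ε * Γ = δ / 8 := by rw [hε]; field_simp
  obtain ⟨m0, hm0⟩ := hSIEGM M n {v // v ∈ plc S} N ε hn hε0
  set m := max m0 1 with hm
  have hm1 : 1 ≤ m := le_max_right _ _
  obtain ⟨C1, hC1, hPP⟩ := hm0 m (le_max_left _ _)
  refine ⟨ε, ε, m, hε0, hε0, hm1, ?_⟩
  intro K hK
  -- the constant for EVAL
  obtain ⟨C2, hC2, hNC2⟩ : ∃ C2 : ℝ, 1 ≤ C2 ∧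
      ∀ v i k, (n : ℝ) * P.nv v.1 (N v i k) ≤ C2 := by
    refine ⟨1 + ∑ v : {v // v ∈ plc S}, ∑ i, ∑ k, (n : ℝ) * P.nv v.1 (N v i k), ?_, ?_⟩
    · have h2 : 0 ≤ ∑ v : {v // v ∈ plc S}, ∑ i, ∑ k, (n : ℝ) * P.nv v.1 (N v i k) :=
        Finset.sum_nonneg fun v _ => Finset.sum_nonneg fun i _ => Finset.sum_nonneg fun k _ =>
          mul_nonneg (Nat.cast_nonneg _) (P.nn _ _)
      linarith
    · intro v i k
      have h2 : ∑ i, ∑ k, (n : ℝ) * P.nv v.1 (N v i k) ≤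
          ∑ v : {v // v ∈ plc S}, ∑ i, ∑ k, (n : ℝ) * P.nv v.1 (N v i k) :=
        Finset.single_le_sum (f := fun v : {v // v ∈ plc S} =>
          ∑ i, ∑ k, (n : ℝ) * P.nv v.1 (N v i k))
          (fun v _ => Finset.sum_nonneg fun i _ => Finset.sum_nonneg fun k _ =>
            mul_nonneg (Nat.cast_nonneg _) (P.nn _ _))
          (Finset.mem_univ v)
      have h3 : ∑ k, (n : ℝ) * P.nv v.1 (N v i k) ≤ ∑ i, ∑ k, (n : ℝ) * P.nv v.1 (N v i k) :=
        Finset.single_le_sum (f := fun i => ∑ k, (n : ℝ) * P.nv v.1 (N v i k))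
          (fun i _ => Finset.sum_nonneg fun k _ => mul_nonneg (Nat.cast_nonneg _) (P.nn _ _))
          (Finset.mem_univ i)
      have h4 : (n : ℝ) * P.nv v.1 (N v i k) ≤ ∑ k, (n : ℝ) * P.nv v.1 (N v i k) :=
        Finset.single_le_sum (f := fun k => (n : ℝ) * P.nv v.1 (N v i k))
          (fun k _ => mul_nonneg (Nat.cast_nonneg _) (P.nn _ _)) (Finset.mem_univ k)
      linarith
  set C3 : ℝ := C2 * (4 ^ n * C1) * K with hC3
  have hC3pos : 1 ≤ C3 := by
    rw [hC3]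
    have h1 : (1 : ℝ) ≤ 4 ^ n := one_le_pow₀ (by norm_num)
    exact one_le_mul_of_one_le_of_one_le
      (one_le_mul_of_one_le_of_one_le hC2 (one_le_mul_of_one_le_of_one_le h1 hC1)) hK
  set W : ℝ := ((plc S).card : ℝ) * Real.log C3 with hW
  have hW0 : 0 ≤ W := mul_nonneg (Nat.cast_nonneg _) (Real.log_nonneg hC3pos)
  set T : ℝ := 2 * (1 + ε) * W / δ + 1 with hT
  have hT0 : 0 < T := by rw [hT]; positivity
  refine ⟨max C1 (Real.exp T), le_trans hC1 (le_max_left _ _), ?_⟩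
  intro r Q L hr hL hQ
  obtain ⟨F0, hF0, hMH, hco, hsup⟩ := hPP r hr
  refine ⟨F0, hF0, hMH, ?_, ?_⟩
  · intro J
    refine le_trans (hco J) ?_
    exact pow_le_pow_left₀ (le_trans zero_le_one hC1) (le_max_left _ _) _
  intro J0 hJ0 x hx
  by_contra hne
  set R := ∑ h, r h with hR
  set F := hd J0 F0 with hF
  set r' : Fin m → ℕ := fun h => r h - ∑ i, J0 (h, i) with hr'
  have hMHF : MH r' F := Pool.Agent.Helper77.SUB.MH_hd hHD hMH J0
  have hR' : ∑ h, r' h ≤ R := Finset.sum_le_sum fun h _ => Nat.sub_le _ _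
  have hQ1 : ∀ h, 1 ≤ Q h := by
    intro h
    have h1 := (hQ h).1
    exact le_trans hC1 (le_trans (le_max_left _ _) h1)
  have hw : ∀ h, L ≤ r h * Real.log (Q h) ∧ r h * Real.log (Q h) ≤ (1 + ε) * L :=
    fun h => (hQ h).2
  set E : Option ℕ → ℝ := fun v =>
    L * ((m : ℝ) / n * ∑ i, γ v i + (∑ i, |γ v i|) * (ε * m + ε + ε * m)) with hE
  have hbase : (0 : ℝ) ≤ C3 ^ R := pow_nonneg (le_trans zero_le_one hC3pos) _
  have hloc : ∀ v ∈ plc S, av v ((MvPolynomial.eval (bl x) F : ℤ) : ℚ) ≤ C3 ^ R * Real.exp (E v) := by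
    intro v hv
    have hb0 : 0 ≤ K ^ R * Real.exp (E v) := by
      have : 0 ≤ K := le_trans zero_le_one hK
      positivity
    have h1 := hEVALM M S P m n hS v hv (A v) (N ⟨v, hv⟩) C2 (hNA ⟨v, hv⟩)
      (hNC2 ⟨v, hv⟩) hC2 r' F x (K ^ R * Real.exp (E v)) hMHF hb0 ?_
    · refine le_trans h1 ?_
      have h2 : (l1 F : ℝ) ≤ (4 ^ n * C1) ^ R :=
        Pool.Agent.Helper77.SUB.l1_hd_bound hL1 hMH C1 hC1 hco J0
      have h3 : C2 ^ (∑ h, r' h) ≤ C2 ^ R := pow_le_pow_right₀ hC2 hR'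
      have h4 : C2 ^ (∑ h, r' h) * (l1 F : ℝ) ≤ C2 ^ R * (4 ^ n * C1) ^ R := by
        apply mul_le_mul h3 h2
        · have : (0 : ℤ) ≤ l1 F := Finset.sum_nonneg fun J _ => abs_nonneg _
          exact_mod_cast this
        · exact pow_nonneg (le_trans zero_le_one hC2) _
      calc C2 ^ (∑ h, r' h) * (l1 F : ℝ) * (K ^ R * Real.exp (E v))
          ≤ C2 ^ R * (4 ^ n * C1) ^ R * (K ^ R * Real.exp (E v)) :=
            mul_le_mul_of_nonneg_right h4 hb0
        _ = C3 ^ R * Real.exp (E v) := by rw [hC3, mul_pow (C2 * (4 ^ n * C1)) K, mul_pow C2 (4 ^ n * C1)]; ring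
    · intro J hJ
      have hNdet : (N ⟨v, hv⟩).det ≠ 0 := by
        intro h0
        have h2 := congrArg Matrix.det (hNA ⟨v, hv⟩)
        rw [Matrix.det_mul, h0, zero_mul, Matrix.det_one] at h2
        exact zero_ne_one h2
      have hJQ : (lsub (N ⟨v, hv⟩) (hd J0 (toM F0))).coeff J ≠ 0 := by
        rw [← (hDSUPM M).2 (Fin m × Fin n) F0 J0]
        exact hJ
      obtain ⟨J', hJ'1, hJ'2⟩ := (hDSUPM M).1 m n _ (toM F0) J0 J hNdet hJQ
      have hMHN := (hLSBM M (P.nv none) (P.nn none) (P.nz none)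
        (fun z => by rw [P.intCast mem_none]; simp [av]) (fun x y => (P.mul none mem_none x y).le)
        (P.add none mem_none) m n r F0 (N ⟨v, hv⟩)
        (∑ i, ∑ k, P.nv none (N ⟨v, hv⟩ i k))
        (Finset.sum_nonneg fun i _ => Finset.sum_nonneg fun k _ => P.nn _ _)
        (fun i k => (Finset.single_le_sum (f := fun k => P.nv none (N ⟨v, hv⟩ i k))
          (fun k _ => P.nn _ _) (Finset.mem_univ k)).trans
          (Finset.single_le_sum (f := fun i => ∑ k, P.nv none (N ⟨v, hv⟩ i k))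
          (fun i _ => Finset.sum_nonneg fun k _ => P.nn _ _) (Finset.mem_univ i)))
        hMH).1 (J + J') hJ'2
      have hsum' : ∑ hi : Fin m × Fin n, (J' hi : ℝ) / r hi.1 ≤ ε := by
        refine le_trans (le_of_eq ?_) hJ0
        rw [Fintype.sum_prod_type, Fintype.sum_prod_type]
        apply Finset.sum_congr rfl
        intro h _
        show ∑ i, (J' (h, i) : ℝ) / r h = ∑ i, (J0 (h, i) : ℝ) / r h
        rw [← Finset.sum_div, ← Finset.sum_div]
        have h2 := hJ'1 h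
        congr 1
        exact_mod_cast h2
      exact Pool.Agent.Helper77.SUB.prod_bound r hr J J' (γ v) Q K L ε hK hQ1 hL hε0 hw hMHN hsum'
        (hsup ⟨v, hv⟩ (J + J') hJ'2)
        (fun hi => P.nv v ((A v).mulVec (cM (x hi.1)) hi.2)) (fun hi => P.nn _ _)
        (fun h i => hx v hv h i)
  -- the product formula
  have hprod : 1 ≤ ∏ v ∈ plc S, av v ((MvPolynomial.eval (bl x) F : ℤ) : ℚ) :=
    (hAV.2.2 S hS).2.2.2.2.2.2.1 _ hne
  have hprod2 : ∏ v ∈ plc S, av v ((MvPolynomial.eval (bl x) F : ℤ) : ℚ) ≤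
      ∏ v ∈ plc S, (C3 ^ R * Real.exp (E v)) :=
    Finset.prod_le_prod (fun v _ => hAV.1 _ _) hloc
  rw [Finset.prod_mul_distrib, Finset.prod_const, ← Real.exp_sum] at hprod2
  have hsumE : ∑ v ∈ plc S, E v ≤ -(L * m * δ / 2) := by
    have hsumγ : ∑ v ∈ plc S, ∑ i, γ v i ≤ -(n * δ) := by
      have h1 : ∑ v ∈ plc S, ∑ i, γ v i = ∑ v ∈ plc S, ∑ i, c v i - n * δ := by
        rw [hγ]
        simp only [Finset.sum_sub_distrib]
        congr 1
        simp only [Finset.sum_const, Finset.card_univ, Fintype.card_fin, nsmul_eq_mul]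
        rw [← Finset.mul_sum, Finset.sum_ite_eq' (plc S) none (fun _ => δ), if_pos]
        unfold plc
        exact Finset.none_mem_insertNone
      rw [h1]
      linarith
    have hEs : ∑ v ∈ plc S, E v = L * ((m : ℝ) / n * ∑ v ∈ plc S, ∑ i, γ v i +
        (∑ v ∈ plc S, ∑ i, |γ v i|) * (ε * m + ε + ε * m)) := by
      rw [hE]
      rw [← Finset.mul_sum, Finset.sum_add_distrib, ← Finset.mul_sum, ← Finset.sum_mul]
    rw [hEs]
    have hn0 : (0 : ℝ) < n := by exact_mod_cast hn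
    have hmR : (1 : ℝ) ≤ m := by exact_mod_cast hm1
    have h2 : (m : ℝ) / n * ∑ v ∈ plc S, ∑ i, γ v i ≤ -(m * δ) := by
      have h3 : (m : ℝ) / n * ∑ v ∈ plc S, ∑ i, γ v i ≤ (m : ℝ) / n * (-(n * δ)) :=
        mul_le_mul_of_nonneg_left hsumγ (by positivity)
      have h4 : (m : ℝ) / n * (-(n * δ)) = -(m * δ) := by field_simp
      linarith
    have h5 : (∑ v ∈ plc S, ∑ i, |γ v i|) * (ε * m + ε + ε * m) ≤ 3 * δ * m / 8 := by
      have h6 : (∑ v ∈ plc S, ∑ i, |γ v i|) ≤ Γ := by rw [hΓ]; linarith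
      have h7 : ε * m + ε + ε * m ≤ 3 * (ε * m) := by
        have : ε ≤ ε * m := le_mul_of_one_le_right hε0.le hmR
        linarith
      calc (∑ v ∈ plc S, ∑ i, |γ v i|) * (ε * m + ε + ε * m) ≤ Γ * (3 * (ε * m)) :=
            mul_le_mul h6 h7 (by positivity) (by linarith)
        _ = 3 * (ε * Γ) * m := by ring
        _ = 3 * δ * m / 8 := by rw [hεΓ]; ring
    have h8 : (m : ℝ) / n * ∑ v ∈ plc S, ∑ i, γ v i +
        (∑ v ∈ plc S, ∑ i, |γ v i|) * (ε * m + ε + ε * m) ≤ -(m * δ / 2) := by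
      have : 0 < (m : ℝ) * δ := by positivity
      nlinarith
    have h9 := mul_le_mul_of_nonneg_left h8 hL.le
    have h10 : L * -(m * δ / 2) = -(L * m * δ / 2) := by ring
    linarith
  have hfin : 1 ≤ (C3 ^ R) ^ (plc S).card * Real.exp (-(L * m * δ / 2)) := by
    refine le_trans hprod (le_trans hprod2 ?_)
    exact mul_le_mul_of_nonneg_left (Real.exp_le_exp.mpr hsumE) (pow_nonneg hbase _)
  have hlog : 0 ≤ (R : ℝ) * W - L * m * δ / 2 := by
    have h1 := Real.log_le_log zero_lt_one hfin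
    have hC3p : 0 < C3 := lt_of_lt_of_le zero_lt_one hC3pos
    rw [Real.log_one, Real.log_mul (pow_ne_zero _ (pow_ne_zero _ hC3p.ne')) (Real.exp_ne_zero _),
      Real.log_exp, ← pow_mul, Real.log_pow] at h1
    rw [hW]
    push_cast at h1
    nlinarith
  -- contradiction
  have hRT : (R : ℝ) * T ≤ m * ((1 + ε) * L) := by
    have h1 : ∀ h, (r h : ℝ) * T ≤ (1 + ε) * L := by
      intro h
      have h2 : T ≤ Real.log (Q h) := by
        rw [Real.le_log_iff_exp_le (lt_of_lt_of_le zero_lt_one (hQ1 h))]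
        exact le_trans (le_max_right _ _) (hQ h).1
      have h3 : (r h : ℝ) * T ≤ r h * Real.log (Q h) :=
        mul_le_mul_of_nonneg_left h2 (Nat.cast_nonneg _)
      exact le_trans h3 (hw h).2
    have h4 : (R : ℝ) * T = ∑ h, (r h : ℝ) * T := by
      rw [← Finset.sum_mul, hR]
      push_cast
      rfl
    rw [h4]
    calc ∑ h, (r h : ℝ) * T ≤ ∑ _h : Fin m, (1 + ε) * L := Finset.sum_le_sum fun h _ => h1 h
      _ = m * ((1 + ε) * L) := by simp
  have hRpos : (0 : ℝ) < R := by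
    have h1 : 1 ≤ r ⟨0, hm1⟩ := hr _
    have h2 : r ⟨0, hm1⟩ ≤ R :=
      Finset.single_le_sum (f := r) (fun _ _ => Nat.zero_le _) (Finset.mem_univ _)
    exact_mod_cast (lt_of_lt_of_le Nat.zero_lt_one (le_trans h1 h2))
  have h1 : (R : ℝ) * (2 * (1 + ε) * W / δ) < m * ((1 + ε) * L) := by
    have : (R : ℝ) * T = R * (2 * (1 + ε) * W / δ) + R := by rw [hT]; ring
    linarith
  have h2 : (R : ℝ) * (2 * (1 + ε) * W / δ) = (1 + ε) * (2 * (R * W) / δ) := by ring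
  have h3 : (m : ℝ) * ((1 + ε) * L) = (1 + ε) * (m * L) := by ring
  rw [h2, h3] at h1
  have h4 : 2 * ((R : ℝ) * W) / δ < m * L := lt_of_mul_lt_mul_left h1 (by positivity)
  rw [div_lt_iff₀ hδ] at h4
  nlinarith

end Pool.Agent.Helper77.SUBK
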