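import Pool.Agent.Helper15.SUB.AV
import Pool.Agent.Helper2.SUB.HERM
import Pool.Agent.Helper2.SUB.REDB
import Pool.Agent.Helper2.SUB.UNI
import Pool.Agent.Helper28.SUB.CPT
import Pool.Agent.Helper45.SUB.DAV
import Pool.Agent.Helper47.SUB.CHEB
import Pool.Agent.Helper47.SUB.HD
import Pool.Agent.Helper47.SUB.L1
import Pool.Agent.Helper71.SUB.ROTH
import Pool.Agent.Helper72.SUB.EXTR
import Pool.Agent.Helper72.SUB.GRID
import Pool.Agent.Helper72.SUB.PLK
import Pool.Agent.Helper77.SUB.HGT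
import Pool.Agent.Helper9.SUB.GRD
import Pool.Agent.Helper9.SUB.RED2
import Pool.Agent.Helper99.SUB.GAPX
import Pool.Agent.Helper93.SUBK.LSBM
import Pool.Agent.Helper93.SUBK.DSUPM
import Pool.Agent.Helper66.SUBK.SIEGM
import Pool.Agent.Helper77.SUBK.EVALM
import Pool.Agent.Helper77.SUBK.VANM
import Pool.Agent.Helper27.SUBK.RMM
import Pool.Agent.Helper27.SUBK.THGM
import Pool.Agent.Helper26.SUBK.LATPM
import Pool.Agent.Helper97.SUBK.BASM
import Pool.Agent.Helper28.SUBK.VOLM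
import Pool.Agent.Helper28.SUBK.COEFM
import Pool.Agent.Helper2.SUBK.QUOM
import Pool.Agent.Helper26.SUBK.SPANM
import Pool.Agent.Helper26.SUBK.HLOWM
import Pool.Agent.Helper72.SUBK.LIOM
import Pool.Agent.Helper97.SUBK.BOXM
import Pool.Agent.Helper47.SUBK.NDGM
import Pool.Agent.Helper72.SUBK.CBM
import Pool.Agent.Helper45.SUBK.PARHM
import Pool.Agent.Helper45.SUBK.PARM
import Pool.Agent.Helper96.SUBK.PFX
import Pool.Agent.Helper96.SUBK.RAT
import Pool.Agent.Helper9.SUBK.GALA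
import Pool.Agent.Helper9.SUBK.INTG
import Pool.Agent.Helper94.SUBK.SVB
import Pool.Agent.Helper89.SUBK.PRK
import Pool.Agent.Helper89.SUBK.DEN
import Pool.Agent.Helper8.SUBK.CHR
import Pool.Agent.Helper77.SUBK.KMAT
import Pool.Agent.Helper99.SUBK.KTR
import Pool.Agent.Helper60.SUBK.KPAR
import Pool.Agent.Helper60.SUBK.SUBTK
import Pool.Agent.Helper89.SUBK.RELK
import Pool.Agent.Helper8.SUBK.U2K
import Pool.Agent.Helper78.SUBK.CLNK
import Pool.Agent.Helper8.SUBK.MONOK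
import Pool.Agent.Helper66.SUBK.LAUBM
import Pool.Agent.Helper99.SUBK.LAU1M
import Pool.Agent.Helper78.SUBK.LAU2K
import Pool.Agent.Helper66.SUBK.COREK
import Pool.Agent.Helper17.SUBK.T1KG
import Pool.Agent.Helper60.SUBK.SUBYK
import Pool.Agent.Helper78.SUBK.CLNB
import Pool.Agent.Helper72.SUBK.EXPK
import Pool.Agent.Helper94.SUBK.CONJ
import Pool.Agent.Helper47.SUBK.T1BG
import Pool.Agent.Helper2.SUBK.T1CG
import Pool.Agent.Helper45.SUBK.FINK

/-! Assembly of project SUBK: the p-adic Subspace theorem over number fields and its application. -/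

set_option autoImplicit false

namespace Pool.Agent.Helper77.SUBK

open Pool.Agent.Helper70.SUB Pool.Agent.Helper70.SUBL

theorem a_av : ST_AV := Pool.Agent.Helper15.SUB.AV
theorem a_hd : ST_HD := Pool.Agent.Helper47.SUB.HD
theorem a_l1 : ST_L1 := Pool.Agent.Helper47.SUB.L1
theorem a_cheb : ST_CHEB := Pool.Agent.Helper47.SUB.CHEB
theorem a_mean : ST_MEAN := Pool.Agent.Helper47.SUB.MEAN
theorem a_roth : ST_ROTH := Pool.Agent.Helper71.SUB.ROTH
theorem a_grd : ST_GRD := Pool.Agent.Helper9.SUB.st_GRD a_hd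
theorem a_grid : ST_GRID := Pool.Agent.Helper72.SUB.GRID a_hd a_grd
theorem a_red2 : ST_RED2 := Pool.Agent.Helper9.SUB.st_RED2 a_hd
theorem a_hgt : ST_HGT := Pool.Agent.Helper77.SUB.HGT
theorem a_redb : ST_REDB := Pool.Agent.Helper2.SUB.REDB Pool.Agent.Helper2.SUB.HERM
theorem a_dav : ST_DAV := Pool.Agent.Helper45.SUB.DAV
theorem a_uni : ST_UNI := Pool.Agent.Helper2.SUB.UNI
theorem a_cpt : ST_CPT := Pool.Agent.Helper28.SUB.CPT
theorem a_gapx : ST_GAPX := Pool.Agent.Helper99.SUB.GAPX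
theorem a_plk : ST_PLK := Pool.Agent.Helper72.SUB.PLK
theorem a_extr : ST_EXTR := Pool.Agent.Helper72.SUB.EXTR

theorem k_lsb : ST_LSBM := Pool.Agent.Helper93.SUBK.LSBM
theorem k_sieg : ST_SIEGM := Pool.Agent.Helper66.SUBK.SIEGM a_cheb a_mean k_lsb
theorem k_dsup : ST_DSUPM := Pool.Agent.Helper93.SUBK.DSUPM a_hd
theorem k_eval : ST_EVALM := EVALM a_av k_lsb
theorem k_van : ST_VANM := VANM a_av a_hd a_l1 k_lsb k_sieg k_dsup k_eval
theorem k_rm : ST_RMM := Pool.Agent.Helper27.SUBK.RMM a_av a_roth k_van a_grid a_red2 a_hgt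
theorem k_lat : ST_LATPM := Pool.Agent.Helper26.SUBK.LATPM a_av
theorem k_bas : ST_BASM := Pool.Agent.Helper97.SUBK.BASM a_av k_lat a_redb
theorem k_vol : ST_VOLM := Pool.Agent.Helper28.SUBK.VOLM a_av
theorem k_coef : ST_COEFM := Pool.Agent.Helper28.SUBK.COEFM
theorem k_quo : ST_QUOM := Pool.Agent.Helper2.SUBK.QUOM a_uni
theorem k_span : ST_SPANM := Pool.Agent.Helper26.SUBK.SPANM a_av k_coef
theorem k_lio : ST_LIOM := Pool.Agent.Helper72.SUBK.LIOM a_av
theorem k_hlow : ST_HLOWM := Pool.Agent.Helper26.SUBK.HLOWM k_lio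
theorem k_box : ST_BOXM := Pool.Agent.Helper97.SUBK.BOXM a_av k_vol a_dav
theorem k_ndg : ST_NDGM :=
  Pool.Agent.Helper47.SUBK.NDGM k_bas k_vol k_span k_hlow k_box a_cpt k_rm
theorem k_thg : ST_THGM := Pool.Agent.Helper27.SUBK.THGM k_ndg k_quo
theorem k_parh : ST_PARHM := Pool.Agent.Helper45.SUBK.PARHM a_av
theorem k_par : ST_PARM :=
  Pool.Agent.Helper45.SUBK.PARM k_bas k_vol k_coef a_gapx k_parh a_plk k_thg

theorem k_pfx : ST_PFX := Pool.Agent.Helper96.SUBK.PFX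
theorem k_rat : ST_RAT := Pool.Agent.Helper96.SUBK.RAT
theorem k_gala : ST_GALA := Pool.Agent.Helper9.SUBK.st_GALA
theorem k_svb : ST_SVB := Pool.Agent.Helper94.SUBK.SVB
theorem k_intg : ST_INTG := Pool.Agent.Helper9.SUBK.st_INTG a_av
theorem k_prk : ST_PRK := Pool.Agent.Helper89.SUBK.PRK a_av k_gala
theorem k_den : ST_DEN := Pool.Agent.Helper89.SUBK.DEN a_av k_gala k_intg
theorem k_chr : ST_CHR := Pool.Agent.Helper8.SUBK.CHR
theorem k_kmat : ST_KMAT := KMAT k_rat k_chr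
theorem k_ktr : ST_KTR := Pool.Agent.Helper99.SUBK.KTR
theorem k_kpar : ST_KPAR := Pool.Agent.Helper60.SUBK.KPAR k_kmat k_par k_ktr
/-- the Subspace theorem over number fields -/
theorem k_subt : ST_SUBTK := Pool.Agent.Helper60.SUBK.SUBTK a_av a_cpt k_gala k_lio k_kpar
theorem k_rel : ST_RELK := Pool.Agent.Helper89.SUBK.RELK k_pfx k_svb k_prk k_den k_subt
theorem k_u2 : ST_U2K := Pool.Agent.Helper8.SUBK.U2K k_subt k_rel k_prk k_den
theorem k_cln : ST_CLNK := Pool.Agent.Helper78.SUBK.CLNK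
theorem k_hb : ST_HBK := Pool.Agent.Helper78.SUBK.HBK a_av k_u2
theorem k_mono : ST_MONOK := Pool.Agent.Helper8.SUBK.MONOK a_uni
theorem k_laub : ST_LAUBM := Pool.Agent.Helper66.SUBK.LAUBM
theorem k_lau1 : ST_LAU1M := Pool.Agent.Helper99.SUBK.LAU1M k_laub
theorem k_lau2 : ST_LAU2K := Pool.Agent.Helper78.SUBK.LAU2K k_u2 k_prk k_svb
theorem k_num : ST_NUMK := Pool.Agent.Helper78.SUBK.NUMK k_prk k_svb
theorem k_core : ST_COREK := Pool.Agent.Helper66.SUBK.COREK a_av k_lau1 k_lau2 k_num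
theorem k_t1kg : ST_T1KG :=
  Pool.Agent.Helper17.SUBK.T1KG k_cln k_hb k_mono k_pfx k_svb k_prk k_laub k_core a_extr

theorem k_suby : Pool.Agent.Helper70.SUBL.ST_SUBYK :=
  Pool.Agent.Helper60.SUBK.SUBYK a_av k_subt k_rel k_prk k_den k_svb k_laub
theorem k_clnb : ST_CLNB := Pool.Agent.Helper78.SUBK.CLNB
theorem k_expk : ST_EXPK := Pool.Agent.Helper72.SUBK.EXPK
theorem k_conj : ST_CONJ := Pool.Agent.Helper94.SUBK.CONJ k_clnb k_hb k_mono k_pfx k_prk k_laub
theorem k_t1bg : ST_T1BG :=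
  Pool.Agent.Helper47.SUBK.T1BG k_conj a_extr k_expk k_suby k_core k_laub
theorem k_t1cg : ST_T1CG :=
  Pool.Agent.Helper2.SUBK.T1CG a_extr k_expk k_conj k_suby k_core
/-- Hall's inequality for sums of boundedly many elements of a finitely generated group -/
theorem k_fink : ST_FINK := Pool.Agent.Helper45.SUBK.FINK k_t1kg k_t1bg k_t1cg k_svb

end Pool.Agent.Helper77.SUBK
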