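import Pool.Agent.Helper77.SUBK.Asm
import Pool.Agent.Helper66.SUBK.SUBTQ
import Pool.Agent.Helper94.SUBK.NXR
import Pool.Agent.Helper78.SUBK.NYR

/-! Assembly of sheet G: integral points near algebraic multiples of rational S-units. -/

set_option autoImplicit false

namespace Pool.Agent.Helper77.SUBK

open Pool.Agent.Helper70.SUB

theorem k_subtq : ST_SUBTQ := Pool.Agent.Helper66.SUBK.SUBTQ k_subt k_pfx
theorem k_nxr : ST_NXR := Pool.Agent.Helper94.SUBK.NXR k_subtq
theorem k_nyr : ST_NYR := Pool.Agent.Helper78.SUBK.NYR k_nxr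

end Pool.Agent.Helper77.SUBK
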