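import Pool.Agent.Helper70.SUB.SheetA
import Pool.Agent.Helper15.SUB.AV

/-!
Project SUBK: the Subspace theorem with coefficients in a number field `M`.
Absolute values of `M` extending the absolute values of `ℚ`, basic facts.
-/

set_option autoImplicit false

namespace Pool.Agent.Helper77.SUBK

open Finset Matrix Pool.Agent.Helper70.SUB

/-- a family of absolute values of the number field `M` (one for every place of `ℚ` in `plc S`)
which extend those of `ℚ`; at the real place it comes from a complex embedding -/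
structure PF (S : Finset ℕ) (M : Type) [Field M] [NumberField M] where
  nv : Option ℕ → M → ℝ
  emb : M →+* ℂ
  inf : ∀ x, nv none x = ‖emb x‖
  nn : ∀ v x, 0 ≤ nv v x
  nz : ∀ v, nv v 0 = 0
  pos : ∀ v ∈ plc S, ∀ x, x ≠ 0 → 0 < nv v x
  mul : ∀ v ∈ plc S, ∀ x y, nv v (x * y) = nv v x * nv v y
  add : ∀ v ∈ plc S, ∀ x y, nv v (x + y) ≤ nv v x + nv v y
  ult : ∀ p ∈ S, ∀ x y, nv (some p) (x + y) ≤ max (nv (some p) x) (nv (some p) y)
  ext : ∀ v ∈ plc S, ∀ q : ℚ, nv v (q : M) = av v q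

variable {S : Finset ℕ} {M : Type} [Field M] [NumberField M]

/-- `a` lies in the closure of `ℚ` at `v` -/
def Rt (P : PF S M) (v : Option ℕ) (a : M) : Prop := ∀ ε : ℝ, 0 < ε → ∃ q : ℚ, P.nv v (a - q) < ε

/-- all entries lie in the closure of `ℚ` -/
def RtM (P : PF S M) {N : ℕ} (A : Option ℕ → Matrix (Fin N) (Fin N) M) : Prop :=
  ∀ v ∈ plc S, ∀ i j, Rt P v (A v i j)

/-- integer vectors and matrices over `M` -/
def cM {ι : Type} (x : ι → ℤ) : ι → M := fun i => (x i : M)

abbrev mM (M : Type) [Field M] {ι κ : Type} (W : Matrix ι κ ℤ) : Matrix ι κ M :=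
  W.map (Int.cast : ℤ → M)

/-- polynomials over `M` -/
noncomputable def toM {σ : Type} : MvPolynomial σ ℤ →+* MvPolynomial σ M :=
  MvPolynomial.map (Int.castRingHom M)

/-! ### facts on the absolute values -/

theorem mem_none : (none : Option ℕ) ∈ plc S := by simp [plc]

theorem mem_some {p : ℕ} (hp : p ∈ S) : some p ∈ plc S := by
  simp only [plc, Finset.some_mem_insertNone]; exact hp

theorem of_mem_some {p : ℕ} (hp : some p ∈ plc S) : p ∈ S := by
  simpa only [plc, Finset.some_mem_insertNone] using hp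

namespace PF

variable (P : PF S M)

theorem one {v : Option ℕ} (hv : v ∈ plc S) : P.nv v 1 = 1 := by
  have h1 := P.mul v hv 1 1
  have h2 := P.pos v hv 1 one_ne_zero
  rw [mul_one] at h1
  have h3 : P.nv v 1 * 1 = P.nv v 1 * P.nv v 1 := by rw [mul_one]; exact h1
  exact (mul_left_cancel₀ h2.ne' h3).symm

theorem eq_zero {v : Option ℕ} (hv : v ∈ plc S) {x : M} (h : P.nv v x = 0) : x = 0 := by
  by_contra hx
  exact (P.pos v hv x hx).ne' h

theorem neg {v : Option ℕ} (hv : v ∈ plc S) (x : M) : P.nv v (-x) = P.nv v x := by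
  have h1 := P.mul v hv (-1) (-1)
  rw [neg_mul_neg, one_mul, P.one hv] at h1
  have h2 : P.nv v (-1) = 1 := by
    have h3 := P.nn v (-1)
    nlinarith
  have h4 := P.mul v hv (-1) x
  rw [h2, one_mul, neg_one_mul] at h4
  exact h4

theorem sub {v : Option ℕ} (hv : v ∈ plc S) (x y : M) :
    P.nv v (x - y) ≤ P.nv v x + P.nv v y := by
  have := P.add v hv x (-y)
  rwa [P.neg hv, ← sub_eq_add_neg] at this

theorem sub_comm {v : Option ℕ} (hv : v ∈ plc S) (x y : M) :
    P.nv v (x - y) = P.nv v (y - x) := by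
  rw [← P.neg hv (x - y), neg_sub]

theorem inv {v : Option ℕ} (hv : v ∈ plc S) (x : M) : P.nv v x⁻¹ = (P.nv v x)⁻¹ := by
  rcases eq_or_ne x 0 with h | h
  · rw [h, _root_.inv_zero, P.nz, _root_.inv_zero]
  · have h1 := P.mul v hv x x⁻¹
    rw [mul_inv_cancel₀ h, P.one hv] at h1
    exact eq_inv_of_mul_eq_one_right h1.symm

theorem div {v : Option ℕ} (hv : v ∈ plc S) (x y : M) : P.nv v (x / y) = P.nv v x / P.nv v y := by
  rw [div_eq_mul_inv, P.mul v hv, P.inv hv, ← div_eq_mul_inv]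

theorem pow {v : Option ℕ} (hv : v ∈ plc S) (x : M) (k : ℕ) : P.nv v (x ^ k) = P.nv v x ^ k := by
  induction k with
  | zero => rw [pow_zero, pow_zero]; exact P.one hv
  | succ k ih => rw [pow_succ, pow_succ, P.mul v hv, ih]

theorem zpow {v : Option ℕ} (hv : v ∈ plc S) (x : M) (k : ℤ) :
    P.nv v (x ^ k) = P.nv v x ^ k := by
  cases k with
  | ofNat k => simp only [Int.ofNat_eq_natCast, zpow_natCast]; exact P.pow hv x k
  | negSucc k => rw [zpow_negSucc, zpow_negSucc, P.inv hv, P.pow hv]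

theorem prod {v : Option ℕ} (hv : v ∈ plc S) {ι : Type} (s : Finset ι) (f : ι → M) :
    P.nv v (∏ i ∈ s, f i) = ∏ i ∈ s, P.nv v (f i) := by
  classical
  induction s using Finset.induction_on with
  | empty => rw [Finset.prod_empty, Finset.prod_empty]; exact P.one hv
  | insert a s ha ih => rw [Finset.prod_insert ha, Finset.prod_insert ha, P.mul v hv, ih]

/-- triangle inequality for sums -/
theorem sum_le {v : Option ℕ} (hv : v ∈ plc S) {ι : Type} (s : Finset ι) (f : ι → M) :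
    P.nv v (∑ i ∈ s, f i) ≤ ∑ i ∈ s, P.nv v (f i) := by
  classical
  induction s using Finset.induction_on with
  | empty => rw [Finset.sum_empty, Finset.sum_empty, P.nz]
  | insert a s ha ih =>
    rw [Finset.sum_insert ha, Finset.sum_insert ha]
    exact (P.add v hv _ _).trans (by linarith)

/-- ultrametric inequality for sums -/
theorem sum_ult {p : ℕ} (hp : p ∈ S) {ι : Type} (s : Finset ι) (f : ι → M) (b : ℝ) (hb : 0 ≤ b)
    (h : ∀ i ∈ s, P.nv (some p) (f i) ≤ b) : P.nv (some p) (∑ i ∈ s, f i) ≤ b := by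
  classical
  induction s using Finset.induction_on with
  | empty => rw [Finset.sum_empty, P.nz]; exact hb
  | insert a s ha ih =>
    rw [Finset.sum_insert ha]
    refine (P.ult p hp _ _).trans (max_le ?_ ?_)
    · exact h a (Finset.mem_insert_self a s)
    · exact ih fun i hi => h i (Finset.mem_insert_of_mem hi)

/-- both in one statement -/
theorem sum_bd {v : Option ℕ} (hv : v ∈ plc S) {ι : Type} (s : Finset ι) (f : ι → M) (b : ℝ)
    (hb : 0 ≤ b) (h : ∀ i ∈ s, P.nv v (f i) ≤ b) :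
    P.nv v (∑ i ∈ s, f i) ≤ (if v = none then (s.card : ℝ) else 1) * b := by
  cases v with
  | none =>
    rw [if_pos rfl]
    calc P.nv none (∑ i ∈ s, f i) ≤ ∑ i ∈ s, P.nv none (f i) := P.sum_le hv s f
      _ ≤ ∑ _i ∈ s, b := Finset.sum_le_sum h
      _ = s.card * b := by rw [Finset.sum_const, nsmul_eq_mul]
  | some p =>
    rw [if_neg (by simp), one_mul]
    exact P.sum_ult (of_mem_some hv) s f b hb h

theorem intCast {v : Option ℕ} (hv : v ∈ plc S) (z : ℤ) :
    P.nv v (z : M) = av v (z : ℚ) := by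
  have h := P.ext v hv (z : ℚ)
  rwa [Rat.cast_intCast] at h

theorem natCast {v : Option ℕ} (hv : v ∈ plc S) (z : ℕ) :
    P.nv v (z : M) = av v (z : ℚ) := by
  have h := P.ext v hv (z : ℚ)
  rwa [Rat.cast_natCast] at h

/-- integers are small at the finite places -/
theorem int_le (hAV : ST_AV) (hS : ∀ p ∈ S, p.Prime) {p : ℕ} (hp : p ∈ S) (z : ℤ) :
    P.nv (some p) (z : M) ≤ 1 := by
  rw [P.intCast (mem_some hp)]
  exact (hAV.2.2 S hS).2.2.2.2.1 p hp z

/-- algebraic integers are small at the finite places -/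
theorem integral_le (hAV : ST_AV) (hS : ∀ p ∈ S, p.Prime) {p : ℕ} (hp : p ∈ S) {x : M}
    (hx : IsIntegral ℤ x) : P.nv (some p) x ≤ 1 := by
  obtain ⟨f, hf, h0⟩ := hx
  by_contra hlt
  push Not at hlt
  have hv := mem_some hp
  rw [Polynomial.eval₂_eq_sum_range, Finset.sum_range_succ, Polynomial.Monic.coeff_natDegree hf,
    map_one, one_mul] at h0
  have h1 : x ^ f.natDegree = -∑ i ∈ Finset.range f.natDegree,
      (algebraMap ℤ M) (f.coeff i) * x ^ i := eq_neg_of_add_eq_zero_right h0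
  have h2 : P.nv (some p) (x ^ f.natDegree) ≤ P.nv (some p) x ^ (f.natDegree - 1) := by
    rw [h1, P.neg hv]
    apply P.sum_ult hp
    · exact pow_nonneg (P.nn _ _) _
    · intro i hi
      rw [P.mul _ hv, P.pow hv]
      have h3 : P.nv (some p) ((algebraMap ℤ M) (f.coeff i)) ≤ 1 := by
        have := P.int_le hAV hS hp (f.coeff i)
        simpa using this
      calc P.nv (some p) ((algebraMap ℤ M) (f.coeff i)) * P.nv (some p) x ^ i
          ≤ 1 * P.nv (some p) x ^ (f.natDegree - 1) := by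
            apply mul_le_mul h3 _ (pow_nonneg (P.nn _ _) _) zero_le_one
            apply pow_le_pow_right₀ hlt.le
            have := Finset.mem_range.1 hi
            omega
        _ = _ := one_mul _
  rw [P.pow hv] at h2
  rcases Nat.eq_zero_or_pos f.natDegree with h | h
  · rw [h] at h1
    simp at h1
  · have h3 : P.nv (some p) x ^ (f.natDegree - 1) < P.nv (some p) x ^ f.natDegree :=
      pow_lt_pow_right₀ hlt (by omega)
    linarith

end PF

/-! ### the closure of the rationals -/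

theorem Rt.rat (P : PF S M) {v : Option ℕ} (q : ℚ) : Rt P v (q : M) := by
  intro ε hε
  refine ⟨q, ?_⟩
  rw [sub_self, P.nz]
  exact hε

theorem Rt.int (P : PF S M) {v : Option ℕ} (z : ℤ) : Rt P v (z : M) := by
  have := Rt.rat P (v := v) (z : ℚ)
  rwa [Rat.cast_intCast] at this

theorem Rt.zero (P : PF S M) {v : Option ℕ} : Rt P v (0 : M) := by
  have := Rt.rat P (v := v) 0
  rwa [Rat.cast_zero] at this

theorem Rt.one (P : PF S M) {v : Option ℕ} : Rt P v (1 : M) := by
  have := Rt.rat P (v := v) 1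
  rwa [Rat.cast_one] at this

theorem Rt.add {P : PF S M} {v : Option ℕ} (hv : v ∈ plc S) {a b : M} (ha : Rt P v a)
    (hb : Rt P v b) : Rt P v (a + b) := by
  intro ε hε
  obtain ⟨q, hq⟩ := ha (ε / 2) (by positivity)
  obtain ⟨r, hr⟩ := hb (ε / 2) (by positivity)
  refine ⟨q + r, ?_⟩
  have h1 : a + b - ((q + r : ℚ) : M) = (a - q) + (b - r) := by push_cast; ring
  rw [h1]
  exact (P.add v hv _ _).trans_lt (by linarith)

theorem Rt.neg {P : PF S M} {v : Option ℕ} (hv : v ∈ plc S) {a : M} (ha : Rt P v a) :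
    Rt P v (-a) := by
  intro ε hε
  obtain ⟨q, hq⟩ := ha ε hε
  refine ⟨-q, ?_⟩
  have h1 : -a - ((-q : ℚ) : M) = -(a - q) := by push_cast; ring
  rw [h1, P.neg hv]
  exact hq

theorem Rt.sub {P : PF S M} {v : Option ℕ} (hv : v ∈ plc S) {a b : M} (ha : Rt P v a)
    (hb : Rt P v b) : Rt P v (a - b) := by
  rw [sub_eq_add_neg]
  exact ha.add hv (hb.neg hv)

theorem Rt.mul {P : PF S M} {v : Option ℕ} (hv : v ∈ plc S) {a b : M} (ha : Rt P v a)
    (hb : Rt P v b) : Rt P v (a * b) := by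
  intro ε hε
  set A := P.nv v a with hA
  set B := P.nv v b with hB
  have hA0 : 0 ≤ A := P.nn _ _
  have hB0 : 0 ≤ B := P.nn _ _
  set δ : ℝ := min 1 (ε / (2 * (A + B + 1))) with hδ
  have hδ0 : 0 < δ := lt_min one_pos (by positivity)
  have hδ1 : δ ≤ 1 := min_le_left _ _
  have hδ2 : δ * (A + B + 1) ≤ ε / 2 := by
    have h1 : δ ≤ ε / (2 * (A + B + 1)) := min_le_right _ _
    calc δ * (A + B + 1) ≤ ε / (2 * (A + B + 1)) * (A + B + 1) :=
          mul_le_mul_of_nonneg_right h1 (by positivity)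
      _ = ε / 2 := by field_simp
  obtain ⟨q, hq⟩ := ha δ hδ0
  obtain ⟨r, hr⟩ := hb δ hδ0
  refine ⟨q * r, ?_⟩
  have h1 : a * b - ((q * r : ℚ) : M) = (a - q) * b + (a * (b - r) - (a - q) * (b - r)) := by
    push_cast; ring
  rw [h1]
  have h2 : P.nv v ((a - q) * b) ≤ δ * B := by
    rw [P.mul v hv]
    exact mul_le_mul_of_nonneg_right hq.le hB0
  have h3 : P.nv v (a * (b - r)) ≤ A * δ := by
    rw [P.mul v hv]
    exact mul_le_mul_of_nonneg_left hr.le hA0
  have h4 : P.nv v ((a - q) * (b - r)) ≤ δ * 1 := by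
    rw [P.mul v hv]
    exact mul_le_mul hq.le (hr.le.trans hδ1) (P.nn _ _) hδ0.le
  calc P.nv v ((a - q) * b + (a * (b - r) - (a - q) * (b - r)))
      ≤ P.nv v ((a - q) * b) + P.nv v (a * (b - r) - (a - q) * (b - r)) := P.add v hv _ _
    _ ≤ δ * B + (A * δ + δ * 1) := add_le_add h2 ((P.sub hv _ _).trans (add_le_add h3 h4))
    _ = δ * (A + B + 1) := by ring
    _ ≤ ε / 2 := hδ2
    _ < ε := by linarith

theorem Rt.inv {P : PF S M} {v : Option ℕ} (hv : v ∈ plc S) {a : M} (ha : Rt P v a) :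
    Rt P v a⁻¹ := by
  rcases eq_or_ne a 0 with h0 | h0
  · rw [h0, _root_.inv_zero]; exact Rt.zero P
  intro ε hε
  set A := P.nv v a with hA
  have hA0 : 0 < A := P.pos v hv a h0
  set δ : ℝ := min (A / 2) (ε * A ^ 2 / 4) with hδ
  have hδ0 : 0 < δ := lt_min (by positivity) (by positivity)
  obtain ⟨q, hq⟩ := ha δ hδ0
  have hq1 : P.nv v (a - q) < A / 2 := lt_of_lt_of_le hq (min_le_left _ _)
  have hq2 : P.nv v (a - q) < ε * A ^ 2 / 4 := lt_of_lt_of_le hq (min_le_right _ _)
  have hqA : A / 2 ≤ P.nv v (q : M) := by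
    have h1 : a = (a - q) + q := by ring
    have h2 : A ≤ P.nv v (a - q) + P.nv v (q : M) := by
      calc A = P.nv v ((a - q) + q) := by rw [← h1]
        _ ≤ _ := P.add v hv _ _
    linarith
  have hq0 : (q : M) ≠ 0 := by
    intro h
    rw [h, P.nz] at hqA
    linarith
  refine ⟨q⁻¹, ?_⟩
  have h1 : a⁻¹ - ((q⁻¹ : ℚ) : M) = -((a - q) * (a⁻¹ * (q : M)⁻¹)) := by
    rw [Rat.cast_inv]
    field_simp
    ring
  rw [h1, P.neg hv, P.mul v hv, P.mul v hv, P.inv hv, P.inv hv]
  have h2 : (P.nv v a)⁻¹ * (P.nv v (q : M))⁻¹ ≤ A⁻¹ * (A / 2)⁻¹ := by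
    apply mul_le_mul_of_nonneg_left _ (inv_nonneg.2 hA0.le)
    exact inv_anti₀ (by positivity) hqA
  calc P.nv v (a - q) * ((P.nv v a)⁻¹ * (P.nv v (q : M))⁻¹)
      ≤ (ε * A ^ 2 / 4) * (A⁻¹ * (A / 2)⁻¹) := by
        apply mul_le_mul hq2.le h2 _ (by positivity)
        exact mul_nonneg (inv_nonneg.2 (P.nn _ _)) (inv_nonneg.2 (P.nn _ _))
    _ = ε / 2 := by field_simp; ring
    _ < ε := by linarith

theorem Rt.sum {P : PF S M} {v : Option ℕ} (hv : v ∈ plc S) {ι : Type} (s : Finset ι) (f : ι → M)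
    (h : ∀ i ∈ s, Rt P v (f i)) : Rt P v (∑ i ∈ s, f i) := by
  classical
  induction s using Finset.induction_on with
  | empty => rw [Finset.sum_empty]; exact Rt.zero P
  | insert a s ha ih =>
    rw [Finset.sum_insert ha]
    exact (h a (Finset.mem_insert_self a s)).add hv (ih fun i hi => h i (Finset.mem_insert_of_mem hi))

theorem Rt.prod {P : PF S M} {v : Option ℕ} (hv : v ∈ plc S) {ι : Type} (s : Finset ι) (f : ι → M)
    (h : ∀ i ∈ s, Rt P v (f i)) : Rt P v (∏ i ∈ s, f i) := by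
  classical
  induction s using Finset.induction_on with
  | empty => rw [Finset.prod_empty]; exact Rt.one P
  | insert a s ha ih =>
    rw [Finset.prod_insert ha]
    exact (h a (Finset.mem_insert_self a s)).mul hv (ih fun i hi => h i (Finset.mem_insert_of_mem hi))

theorem Rt.det {P : PF S M} {v : Option ℕ} (hv : v ∈ plc S) {ι : Type} [Fintype ι] [DecidableEq ι]
    (A : Matrix ι ι M) (h : ∀ i j, Rt P v (A i j)) : Rt P v A.det := by
  rw [Matrix.det_apply]
  apply Rt.sum hv
  intro σ _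
  rw [Units.smul_def, zsmul_eq_mul]
  exact (Rt.int P _).mul hv (Rt.prod hv _ _ fun i _ => h _ _)

theorem Rt.adj {P : PF S M} {v : Option ℕ} (hv : v ∈ plc S) {ι : Type} [Fintype ι] [DecidableEq ι]
    (A : Matrix ι ι M) (h : ∀ i j, Rt P v (A i j)) (i j : ι) : Rt P v (A.adjugate i j) := by
  rw [Matrix.adjugate_apply]
  apply Rt.det hv
  intro k l
  by_cases hk : k = j
  · subst hk
    rw [Matrix.updateRow_self]
    by_cases hl : l = i
    · subst hl; rw [Pi.single_eq_same]; exact Rt.one P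
    · rw [Pi.single_eq_of_ne hl]; exact Rt.zero P
  · rw [Matrix.updateRow_ne hk]; exact h k l

theorem Rt.invM {P : PF S M} {v : Option ℕ} (hv : v ∈ plc S) {ι : Type} [Fintype ι]
    [DecidableEq ι] (A : Matrix ι ι M) (h : ∀ i j, Rt P v (A i j)) (i j : ι) :
    Rt P v (A⁻¹ i j) := by
  rw [Matrix.inv_def, Matrix.smul_apply, smul_eq_mul, Ring.inverse_eq_inv']
  exact ((Rt.det hv A h).inv hv).mul hv (Rt.adj hv A h i j)

theorem Rt.mulM {P : PF S M} {v : Option ℕ} (hv : v ∈ plc S) {ι κ τ : Type} [Fintype κ]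
    (A : Matrix ι κ M) (B : Matrix κ τ M) (h : ∀ i j, Rt P v (A i j)) (h' : ∀ i j, Rt P v (B i j))
    (i : ι) (j : τ) : Rt P v ((A * B) i j) := by
  rw [Matrix.mul_apply]
  exact Rt.sum hv _ _ fun k _ => (h i k).mul hv (h' k j)

/-- at the real place elements of the closure are real -/
theorem Rt.real {P : PF S M} {a : M} (ha : Rt P none a) : (P.emb a).im = 0 := by
  by_contra h
  obtain ⟨q, hq⟩ := ha |(P.emb a).im| (abs_pos.2 h)
  rw [P.inf, map_sub, map_ratCast] at hq
  have h1 : |(P.emb a - (q : ℂ)).im| ≤ ‖P.emb a - (q : ℂ)‖ := Complex.abs_im_le_norm _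
  rw [Complex.sub_im, Complex.ratCast_im, sub_zero] at h1
  linarith

/-! ### integer matrices over `M` -/

theorem mM_mul {N : ℕ} (A B : Matrix (Fin N) (Fin N) ℤ) : mM M (A * B) = mM M A * mM M B :=
  map_mul ((Int.castRingHom M).mapMatrix (m := Fin N)) A B

theorem mM_one {N : ℕ} : mM M (1 : Matrix (Fin N) (Fin N) ℤ) = 1 :=
  map_one ((Int.castRingHom M).mapMatrix (m := Fin N))

theorem mM_det {N : ℕ} (B : Matrix (Fin N) (Fin N) ℤ) : (mM M B).det = ((B.det : ℤ) : M) := by
  rw [Int.cast_det]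

end Pool.Agent.Helper77.SUBK
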