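import Pool.Agent.Helper77.SUBK.SheetK

/-!
Project SUBK, sheet E: integral points near S-units with explicit exponents.
-/

set_option autoImplicit false

namespace Pool.Agent.Helper77.SUBK

open Finset Matrix Pool.Agent.Helper70.SUB

/-- (SUBTR) the Subspace theorem for integral vectors `(z, x)`, the form `z - ∑ α i x i` with real
algebraic coefficients at the real place, coordinates elsewhere -/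
def ST_SUBTR : Prop := ∀ (n : ℕ) (S : Finset ℕ) (α : Fin n → ℝ) (ε A : ℝ) (M1 : Set ℕ)
  (Q : ℕ → ℝ) (z : ℕ → ℤ) (x : ℕ → Fin n → ℤ), (∀ p ∈ S, p.Prime) →
  (∀ i, IsAlgebraic ℚ (α i)) → 0 < ε → 0 < A → M1.Infinite →
  (∀ B : ℝ, {j | j ∈ M1 ∧ Q j ≤ B}.Finite) →
  (∀ j ∈ M1, 1 ≤ Q j ∧ |(z j : ℝ)| ≤ Q j ^ A ∧ (∀ i, |(x j i : ℝ)| ≤ Q j ^ A) ∧
    |(z j : ℝ) - ∑ i, α i * x j i| * (∏ i, |(x j i : ℝ)|) *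
      ∏ p ∈ S, (av (some p) (z j) * ∏ i, av (some p) (x j i)) ≤ Q j ^ (-ε)) →
  ∃ (b0 : ℚ) (b : Fin n → ℚ), (b0 ≠ 0 ∨ b ≠ 0) ∧
    {j | j ∈ M1 ∧ b0 * z j + ∑ i, b i * x j i = 0}.Infinite

/-- (NEARX) `x` is close to an S-unit, `y` is an arbitrary integer -/
def ST_NEARX : Prop := ∀ (S : Finset ℕ) (ε η : ℝ), (∀ p ∈ S, p.Prime) → 0 < ε → 0 < η →
  ∃ C : ℝ, ∀ x y u : ℤ, SU S u → |((x - u : ℤ) : ℝ)| ≤ |(x : ℝ)| ^ (1 / 4 - η) → y ^ 2 ≠ x ^ 3 →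
    Real.log |(x : ℝ)| ≤ (2 + ε) * Real.log |((y ^ 2 - x ^ 3 : ℤ) : ℝ)| + C

/-- (NEARY) `y` is close to an S-unit, `x` is an arbitrary integer -/
def ST_NEARY : Prop := ∀ (S : Finset ℕ) (ε η : ℝ), (∀ p ∈ S, p.Prime) → 0 < ε → 0 < η →
  ∃ C : ℝ, ∀ x y u : ℤ, SU S u → |((y - u : ℤ) : ℝ)| ≤ |(y : ℝ)| ^ (4 / 9 - η) → y ^ 2 ≠ x ^ 3 →
    Real.log |(x : ℝ)| ≤ (2 + ε) * Real.log |((y ^ 2 - x ^ 3 : ℤ) : ℝ)| + C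

end Pool.Agent.Helper77.SUBK
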