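import Pool.Agent.Helper77.SUBK.SheetK

/-!
Project SUBK, sheet F: integral points near algebraic multiples of S-units, explicit exponents.
-/

set_option autoImplicit false

namespace Pool.Agent.Helper77.SUBK

open Finset Matrix Pool.Agent.Helper70.SUB

/-- (SUBTQ) the Subspace theorem for integral vectors, linear forms with real algebraic
coefficients at the real place, coordinates at the primes of `S` -/
def ST_SUBTQ : Prop := ∀ (n : ℕ) (S : Finset ℕ) (A : Matrix (Fin n) (Fin n) ℝ) (ε B : ℝ)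
  (M1 : Set ℕ) (Q : ℕ → ℝ) (x : ℕ → Fin n → ℤ), (∀ p ∈ S, p.Prime) → 1 ≤ n →
  (∀ i k, IsAlgebraic ℚ (A i k)) → A.det ≠ 0 → 0 < ε → 0 < B → M1.Infinite →
  (∀ b : ℝ, {j | j ∈ M1 ∧ Q j ≤ b}.Finite) →
  (∀ j ∈ M1, 1 ≤ Q j ∧ (∀ i, |(x j i : ℝ)| ≤ Q j ^ B) ∧
    (∏ i, |∑ k, A i k * (x j k : ℝ)|) * ∏ p ∈ S, ∏ i, av (some p) (x j i) ≤ Q j ^ (-ε)) →
  ∃ b : Fin n → ℚ, b ≠ 0 ∧ {j | j ∈ M1 ∧ ∑ i, b i * (x j i : ℚ) = 0}.Infinite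

/-- (NXL) `x` is close to `lam` times an S-unit, `y` is an arbitrary integer -/
def ST_NXL : Prop := ∀ (S : Finset ℕ) (lam ε η : ℝ), (∀ p ∈ S, p.Prime) → IsAlgebraic ℚ lam →
  0 < ε → 0 < η →
  ∃ C : ℝ, ∀ x y u : ℤ, SU S u → |(x : ℝ) - lam * u| ≤ |(x : ℝ)| ^ (1 / 4 - η) → y ^ 2 ≠ x ^ 3 →
    Real.log |(x : ℝ)| ≤ (2 + ε) * Real.log |((y ^ 2 - x ^ 3 : ℤ) : ℝ)| + C

/-- (NYL) `y` is close to `lam` times an S-unit, `x` is an arbitrary integer; follows from (NXL) -/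
def ST_NYL : Prop := ∀ (S : Finset ℕ) (lam ε η : ℝ), (∀ p ∈ S, p.Prime) → IsAlgebraic ℚ lam →
  0 < ε → 0 < η →
  ∃ C : ℝ, ∀ x y u : ℤ, SU S u → |(y : ℝ) - lam * u| ≤ |(y : ℝ)| ^ (1 / 2 - η) → y ^ 2 ≠ x ^ 3 →
    Real.log |(x : ℝ)| ≤ (2 + ε) * Real.log |((y ^ 2 - x ^ 3 : ℤ) : ℝ)| + C

end Pool.Agent.Helper77.SUBK
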