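import Pool.Agent.Helper77.SUBK.SheetF

/-!
Project SUBK, sheet G: integral points near algebraic multiples of rational S-units.
-/

set_option autoImplicit false

namespace Pool.Agent.Helper77.SUBK

open Finset Matrix Pool.Agent.Helper70.SUB

/-- (NXR) `x` is close to `lam` times a rational S-unit `u / v` of moderate height, `y` is an
arbitrary integer -/
def ST_NXR : Prop := ∀ (S : Finset ℕ) (lam ε η B : ℝ), (∀ p ∈ S, p.Prime) → IsAlgebraic ℚ lam →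
  0 < ε → 0 < η →
  ∃ C : ℝ, ∀ x y u v : ℤ, SU S u → SU S v → |(v : ℝ)| ≤ |(x : ℝ)| ^ B →
    |(x : ℝ) - lam * (u / v)| ≤ |(x : ℝ)| ^ (1 / 4 - η) → y ^ 2 ≠ x ^ 3 →
    Real.log |(x : ℝ)| ≤ (2 + ε) * Real.log |((y ^ 2 - x ^ 3 : ℤ) : ℝ)| + C

/-- (NYR) `y` is close to `lam` times a rational S-unit `u / v` of moderate height, `x` is an
arbitrary integer; follows from (NXR) -/
def ST_NYR : Prop := ∀ (S : Finset ℕ) (lam ε η B : ℝ), (∀ p ∈ S, p.Prime) → IsAlgebraic ℚ lam →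
  0 < ε → 0 < η →
  ∃ C : ℝ, ∀ x y u v : ℤ, SU S u → SU S v → |(v : ℝ)| ≤ |(y : ℝ)| ^ B →
    |(y : ℝ) - lam * (u / v)| ≤ |(y : ℝ)| ^ (1 / 2 - η) → y ^ 2 ≠ x ^ 3 →
    Real.log |(x : ℝ)| ≤ (2 + ε) * Real.log |((y ^ 2 - x ^ 3 : ℤ) : ℝ)| + C

end Pool.Agent.Helper77.SUBK
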