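import Pool.Agent.Helper77.SUBK.SheetK

/-!
Project SUBK, third sheet: sums with a dominant term (the other coordinate is an arbitrary integer).
-/

set_option autoImplicit false

namespace Pool.Agent.Helper77.SUBK

open Finset Matrix Pool.Agent.Helper70.SUB

/-- (GMAT) rational forms from forms which are permuted, up to scalars, by the decomposition
groups: `A v i k = ∑ τ ∈ D_v, τ (g i * R v i k)` -/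
def ST_GMAT : Prop := ∀ (M : Type) [Field M] [NumberField M] [IsGalois ℚ M] (S : Finset ℕ)
  (P : PF S M) (N : ℕ) (R : Option ℕ → Matrix (Fin N) (Fin N) M), (∀ p ∈ S, p.Prime) →
  (∀ v ∈ plc S, (R v).det ≠ 0) →
  (∀ v ∈ plc S, ∀ τ : M ≃ₐ[ℚ] M, (∀ x, P.nv v (τ x) = P.nv v x) → ∀ i,
    ∃ (i' : Fin N) (ρ : M), ρ ≠ 0 ∧ ∀ k, τ (R v i k) = ρ * R v i' k) →
  ∃ (A : Option ℕ → Matrix (Fin N) (Fin N) M) (K0 : ℝ), 1 ≤ K0 ∧ (∀ v ∈ plc S, (A v).det ≠ 0) ∧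
    RtM P A ∧ ∀ v ∈ plc S, ∀ (x : Fin N → ℚ) (i : Fin N),
      P.nv v ((A v).mulVec (fun k => (x k : M)) i) ≤
        K0 * P.nv v ((R v).mulVec (fun k => (x k : M)) i)

/-- (SUBTM) the Subspace theorem for rational vectors, forms with coefficients in `M` -/
def ST_SUBTM : Prop := ∀ (M : Type) [Field M] [NumberField M] (S : Finset ℕ) (P : PF S M)
  (N : ℕ) (A : Option ℕ → Matrix (Fin N) (Fin N) M) (ε B : ℝ) (M1 : Set ℕ) (Q : ℕ → ℝ)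
  (x : ℕ → Fin N → ℚ), 1 ≤ N → (∀ p ∈ S, p.Prime) → (∀ v ∈ plc S, (A v).det ≠ 0) → RtM P A →
  0 < ε → 0 < B → M1.Infinite → (∀ b : ℝ, {j | j ∈ M1 ∧ Q j ≤ b}.Finite) →
  (∀ j ∈ M1, 1 ≤ Q j ∧
    (∃ m : ℕ, Sm S m ∧ (m : ℝ) ≤ Q j ^ B ∧ ∀ i, ∃ z : ℤ, (m : ℚ) * x j i = z) ∧
    (∀ i, |(x j i : ℝ)| ≤ Q j ^ B) ∧
    ∏ v ∈ plc S, ∏ i, P.nv v ((A v).mulVec (fun k => (x j k : M)) i) ≤ Q j ^ (-ε)) →
  ∃ u : Fin N → ℚ, u ≠ 0 ∧ {j | j ∈ M1 ∧ ∑ i, u i * x j i = 0}.Infinite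

/-- (DSC) Galois descent for a family of S-units: representatives `r j i = sg i (y j (kk i))` of the
proportionality classes of the conjugates of the `y j k` on an infinite set; they are the values
of forms (with invertible matrix `e`) at rational vectors `X j`; the group permutes the forms up to
scalars -/
def ST_DSC : Prop := ∀ (M : Type) [Field M] [NumberField M] [IsGalois ℚ M] (S : Finset ℕ)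
  (n : ℕ) (y : ℕ → Fin n → M) (M1 : Set ℕ), (∀ p ∈ S, p.Prime) → M1.Infinite →
  (∀ j ∈ M1, ∀ k, SV S (y j k)) →
  ∃ (M' : Set ℕ) (s : ℕ) (sg : Fin s → (M ≃ₐ[ℚ] M)) (kk : Fin s → Fin n)
    (e : Matrix (Fin s) (Fin s) M) (X : ℕ → Fin s → ℚ), M' ⊆ M1 ∧ M'.Infinite ∧ e.det ≠ 0 ∧
    (∀ j ∈ M', ∀ i, sg i (y j (kk i)) = ∑ l, (X j l : M) * e l i) ∧
    (∀ (σ : M ≃ₐ[ℚ] M) (k : Fin n), ∃ (i : Fin s) (ρ : M), ρ ≠ 0 ∧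
      ∀ j ∈ M', σ (y j k) = ρ * sg i (y j (kk i))) ∧
    (∀ (i i' : Fin s) (ρ : M), i ≠ i' →
      {j | j ∈ M' ∧ sg i (y j (kk i)) = ρ * sg i' (y j (kk i'))}.Finite) ∧
    (∀ (τ : M ≃ₐ[ℚ] M) (i : Fin s), ∃ (i' : Fin s) (ρ : M), ρ ≠ 0 ∧
      ∀ l, τ (e l i) = ρ * e l i')

/-- (SUBYK) an integer close to a sum of S-units (at the place `P.emb`) is a sum of S-units -/
def ST_SUBYK : Prop := ∀ (M : Type) [Field M] [NumberField M] [IsGalois ℚ M] (S : Finset ℕ)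
  (P : PF S M) (n : ℕ) (c : Fin n → M) (y : ℕ → Fin n → M) (z : ℕ → ℤ) (B η : ℝ) (H : ℕ → ℝ)
  (M1 : Set ℕ), (∀ p ∈ S, p.Prime) → M1.Infinite → 0 < B → 0 < η →
  (∀ b : ℝ, {j | j ∈ M1 ∧ H j ≤ b}.Finite) →
  (∀ j ∈ M1, 1 ≤ H j ∧ (∀ i, SV S (y j i) ∧ HB P (H j ^ B) (y j i)) ∧ |(z j : ℝ)| ≤ H j ^ B ∧
    P.nv none ((z j : M) - ∑ i, c i * y j i) ≤ H j ^ (-η)) →
  ∃ (M' : Set ℕ) (t : ℕ) (c' : Fin t → M) (b : ℕ → Fin t → M), M' ⊆ M1 ∧ M'.Infinite ∧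
    (∀ j ∈ M', ∀ i, SV S (b j i)) ∧ (∀ j ∈ M', (z j : M) = ∑ i, c' i * b j i)

/-- (TRUNC) truncated power series of `(1 + X) ^ (p / q)` -/
def ST_TRUNC : Prop := ∀ (p q K : ℕ), 1 ≤ q → ∃ (T U : Polynomial ℚ), T.coeff 0 = 1 ∧
  (1 + Polynomial.X) ^ p - T ^ q = Polynomial.X ^ K * U

/-- (ROOTK) adjoining roots -/
def ST_ROOTK : Prop := ∀ (M : Type) [Field M] [NumberField M] (Γ : Subgroup Mˣ) (q : ℕ),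
  Γ.FG → 1 ≤ q → ∃ (M' : Type) (_ : Field M') (_ : NumberField M') (_ : IsGalois ℚ M')
    (f : M →+* M') (Γ' : Subgroup M'ˣ), Γ'.FG ∧ (∀ γ ∈ Γ, ∃ w ∈ Γ', f (γ : M) = (w : M') ^ q) ∧
    (∃ ω : M', IsPrimitiveRoot ω q) ∧ ∀ φ : M →+* ℂ, ∃ φ' : M' →+* ℂ, φ'.comp f = φ

/-- (PFE) a family of absolute values with a prescribed complex embedding -/
def ST_PFE : Prop := ∀ (M : Type) [Field M] [NumberField M] (S : Finset ℕ) (φ : M →+* ℂ),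
  (∀ p ∈ S, p.Prime) → ∃ P : PF S M, P.emb = φ

/-- (CLNK2) like CLNK, the remaining terms are among the given ones -/
def ST_CLNK2 : Prop := ∀ (M : Type) [Field M] [NumberField M] (S : Finset ℕ) (t : ℕ)
  (M1 : Set ℕ) (a : ℕ → Fin t → M) (x : ℕ → M), M1.Infinite →
  (∀ j ∈ M1, ∀ i, a j i = 0 ∨ SV S (a j i)) → (∀ j ∈ M1, ∑ i, a j i = x j) →
  ∃ (M' : Set ℕ) (t' : ℕ) (κ : Fin t' → Fin t) (c : Fin t' → M), M' ⊆ M1 ∧ M'.Infinite ∧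
    Function.Injective κ ∧ (∀ i, c i ≠ 0) ∧ (∀ j ∈ M', ∀ i, SV S (a j (κ i))) ∧
    (∀ j ∈ M', ∑ i, c i * a j (κ i) = x j) ∧
    (∀ (i i' : Fin t') (ρ : M), i ≠ i' → {j | j ∈ M' ∧ a j (κ i) = ρ * a j (κ i')}.Finite)

/-- (DOMB) the heart for `x = w ^ 2 + ` smaller terms -/
def ST_DOMB : Prop := ∀ (M : Type) [Field M] [NumberField M] [IsGalois ℚ M] (S : Finset ℕ)
  (P : PF S M) (t : ℕ) (ε δ : ℝ) (M1 : Set ℕ) (w : ℕ → M) (a : ℕ → Fin t → M) (x y : ℕ → ℤ),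
  (∀ p ∈ S, p.Prime) → 0 < ε → 0 < δ → M1.Infinite →
  (∀ B : ℝ, {j | j ∈ M1 ∧ |(x j : ℝ)| ≤ B}.Finite) →
  (∀ j ∈ M1, SV S (w j) ∧ (∀ i, a j i = 0 ∨ SV S (a j i)) ∧
    (∀ i, P.nv none (a j i) ≤ P.nv none (w j) ^ (2 - δ)) ∧ w j ^ 2 + ∑ i, a j i = (x j : M) ∧
    y j ^ 2 ≠ x j ^ 3 ∧ |((y j ^ 2 - x j ^ 3 : ℤ) : ℝ)| ≤ |(x j : ℝ)| ^ (1 / (2 + ε))) → False

/-- (DOMC) the heart for `y = w ^ 3 + ` smaller terms -/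
def ST_DOMC : Prop := ∀ (M : Type) [Field M] [NumberField M] [IsGalois ℚ M] (S : Finset ℕ)
  (P : PF S M) (ω : M) (t : ℕ) (ε δ : ℝ) (M1 : Set ℕ) (w : ℕ → M) (b : ℕ → Fin t → M)
  (x y : ℕ → ℤ), (∀ p ∈ S, p.Prime) → IsPrimitiveRoot ω 3 → 0 < ε → 0 < δ → M1.Infinite →
  (∀ B : ℝ, {j | j ∈ M1 ∧ |(x j : ℝ)| ≤ B}.Finite) →
  (∀ j ∈ M1, SV S (w j) ∧ (∀ i, b j i = 0 ∨ SV S (b j i)) ∧
    (∀ i, P.nv none (b j i) ≤ P.nv none (w j) ^ (3 - δ)) ∧ w j ^ 3 + ∑ i, b j i = (y j : M) ∧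
    y j ^ 2 ≠ x j ^ 3 ∧ |((y j ^ 2 - x j ^ 3 : ℤ) : ℝ)| ≤ |(x j : ℝ)| ^ (1 / (2 + ε))) → False

/-- (T1BK) `x` is a sum with a dominant term, `y` is an arbitrary integer -/
def ST_T1BK : Prop := ∀ (M : Type) [Field M] [NumberField M] (φ : M →+* ℂ) (Γ : Subgroup Mˣ)
  (t : ℕ) (ε δ : ℝ), Γ.FG → 0 < ε → 0 < δ →
  ∃ C : ℝ, ∀ (a0 : M) (a : Fin t → M) (x y : ℤ), (∃ γ ∈ Γ, a0 = (γ : M)) →
    (∀ i, a i = 0 ∨ ∃ γ ∈ Γ, a i = (γ : M)) → (∀ i, ‖φ (a i)‖ ≤ ‖φ a0‖ ^ (1 - δ)) →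
    a0 + ∑ i, a i = (x : M) → y ^ 2 ≠ x ^ 3 →
    Real.log |(x : ℝ)| ≤ (2 + ε) * Real.log |((y ^ 2 - x ^ 3 : ℤ) : ℝ)| + C

/-- (T1CK) `y` is a sum with a dominant term, `x` is an arbitrary integer -/
def ST_T1CK : Prop := ∀ (M : Type) [Field M] [NumberField M] (φ : M →+* ℂ) (Γ : Subgroup Mˣ)
  (t : ℕ) (ε δ : ℝ), Γ.FG → 0 < ε → 0 < δ →
  ∃ C : ℝ, ∀ (b0 : M) (b : Fin t → M) (x y : ℤ), (∃ γ ∈ Γ, b0 = (γ : M)) →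
    (∀ i, b i = 0 ∨ ∃ γ ∈ Γ, b i = (γ : M)) → (∀ i, ‖φ (b i)‖ ≤ ‖φ b0‖ ^ (1 - δ)) →
    b0 + ∑ i, b i = (y : M) → y ^ 2 ≠ x ^ 3 →
    Real.log |(x : ℝ)| ≤ (2 + ε) * Real.log |((y ^ 2 - x ^ 3 : ℤ) : ℝ)| + C

end Pool.Agent.Helper77.SUBK
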